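import Pool.Agent.Helper63.Mc.Loc

/-!
# Cocompact actions
-/

set_option autoImplicit false

namespace Pool.Agent.Helper63.Mc

open Pool.Agent.Y167 Pool.Agent.N165.KM Matrix Finset Topology

variable {n : ℕ} {C : Set (Fin n → ℝ)} {Γ : Subgroup ((Fin n → ℝ) ≃ₗ[ℝ] (Fin n → ℝ))}

/-- The group acts cocompactly on the projectivisation of the interior of the cone. -/
def Cocompact (C : Set (Fin n → ℝ)) (Γ : Subgroup ((Fin n → ℝ) ≃ₗ[ℝ] (Fin n → ℝ))) : Prop :=
  ∃ K : Set (Fin n → ℝ), IsCompact K ∧ K ⊆ interior C ∧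
    ∀ x ∈ interior C, ∃ g ∈ Γ, ∃ k ∈ K, ∃ t : ℝ, 0 < t ∧ g x = t • k

/-- For a cocompact action all boundary points are conical. -/
theorem conical_of_cocompact (h : Proper C) (hc : Cocompact C Γ) {ρ : Fin n → ℝ} (hρ : ρ ∈ C) :
    Conical C Γ ρ := by
  obtain ⟨K, hK, hKC, hcov⟩ := hc
  obtain ⟨a, ha⟩ := h.int
  refine ⟨a, ha, K, hK, hKC, fun ε hε => ⟨ε / 2, half_pos hε, by linarith, ?_⟩⟩
  apply hcov
  rw [add_comm]
  exact interior_add_mem h.add (interior_smul_mem h.smul (half_pos hε) ha) hρ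

/-- If all nonzero boundary points are conical, the action is cocompact. -/
theorem cocompact_of_conical (h : Proper C) (ha : Acts C Γ)
    (hcon : ∀ ρ ∈ C, ρ ≠ 0 → ρ ∉ interior C → Conical C Γ ρ) : Cocompact C Γ := by
  classical
  obtain ⟨ξ, y₀, Y, D, hy₀⟩ := exists_cdata (sandwich_self h)
  have hξc : Continuous ξ := LinearMap.continuous_of_finiteDimensional ξ
  have hgc : ∀ g : (Fin n → ℝ) ≃ₗ[ℝ] (Fin n → ℝ), Continuous g := fun g =>
    LinearMap.continuous_of_finiteDimensional (g : (Fin n → ℝ) →ₗ[ℝ] (Fin n → ℝ))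
  let P : Set (Fin n → ℝ) := {x | x ∈ C ∧ ∀ g ∈ Γ, ξ x ≤ ξ (g x)}
  have hPc : IsClosed P := by
    have h1 : P = C ∩ ⋂ g ∈ Γ, {x | ξ x ≤ ξ (g x)} := by
      ext x
      simp [P]
    rw [h1]
    exact h.closed.inter (isClosed_biInter fun g _ =>
      isClosed_le hξc (hξc.comp (hgc g)))
  let Q : Set (Fin n → ℝ) := P ∩ Metric.sphere 0 1
  have hQ : IsCompact Q := (isCompact_sphere 0 1).inter_left hPc
  have hQC : Q ⊆ interior C := by
    rintro ρ ⟨⟨hρC, hρP⟩, hρ1⟩
    by_contra hi
    have hρ0 : ρ ≠ 0 := by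
      rintro rfl
      simp at hρ1
    exact not_conical h ha D hy₀ hρC hρ0 hi hρP (hcon ρ hρC hρ0 hi)
  refine ⟨insert y₀ Q, hQ.insert y₀, ?_, ?_⟩
  · rintro x (rfl | hx)
    · exact hy₀
    · exact hQC hx
  · intro x hx
    obtain ⟨g, hg, hmin⟩ := exists_dirichlet ha D hx
    have hgx : g x ∈ interior C := ha.interior hg hx
    by_cases h0 : g x = 0
    · -- then `y₀ = 0` too
      refine ⟨g, hg, y₀, Set.mem_insert _ _, 1, one_pos, ?_⟩
      rw [one_smul]
      have h1 : ∀ z : Fin n → ℝ, z = 0 := by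
        intro z
        rw [h0] at hgx
        obtain ⟨t, ht, htz⟩ := interior_sub hgx z
        obtain ⟨s, hs, hsz⟩ := interior_sub hgx (-z)
        have h2 : z ∈ C := by
          have := h.smul s⁻¹ (inv_nonneg.2 hs.le) _ (interior_subset hsz)
          simpa [smul_smul, hs.ne'] using this
        have h3 : -z ∈ C := by
          have := h.smul t⁻¹ (inv_nonneg.2 ht.le) _ (interior_subset htz)
          rwa [zero_sub, smul_neg, smul_smul, inv_mul_cancel₀ ht.ne', one_smul] at this
        exact h.pointed z h2 h3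
      rw [h1 (g x), h1 y₀]
    have hn : 0 < ‖g x‖ := norm_pos_iff.2 h0
    refine ⟨g, hg, ‖g x‖⁻¹ • g x, Set.mem_insert_of_mem _ ⟨⟨?_, ?_⟩, ?_⟩, ‖g x‖, hn, ?_⟩
    · exact interior_subset (interior_smul_mem h.smul (inv_pos.2 hn) hgx)
    · intro g' hg'
      rw [map_smul, map_smul, map_smul, smul_eq_mul, smul_eq_mul]
      exact mul_le_mul_of_nonneg_left (hmin (g' * g) (Γ.mul_mem hg' hg)) (inv_nonneg.2 hn.le)
    · rw [mem_sphere_zero_iff_norm, norm_smul, norm_inv, norm_norm, inv_mul_cancel₀ hn.ne']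
    · rw [smul_smul, mul_inv_cancel₀ hn.ne', one_smul]

/-- For a cocompact action there are no integral boundary points. -/
theorem no_int_boundary (h : Proper C) (ha : Acts C Γ) (hc : Cocompact C Γ) {v : Fin n → ℝ}
    (hv : v ∈ C) (hvL : v ∈ IntL n) (hv0 : v ≠ 0) : v ∈ interior C := by
  classical
  by_contra hvi
  obtain ⟨ξ, y₀, Y, D, hy₀⟩ := exists_cdata (sandwich_self h)
  -- an element of the orbit with a minimal value
  have hfin : {w | w ∈ IntL n ∧ w ∈ C ∧ ξ w ≤ ξ v}.Finite := D.fin (ξ v)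
  have hfin2 : {w | (∃ g ∈ Γ, g v = w) ∧ ξ w ≤ ξ v}.Finite := by
    refine hfin.subset ?_
    rintro w ⟨⟨g, hg, rfl⟩, hw⟩
    exact ⟨ha.int g hg v hvL, ha.cone g hg v hv, hw⟩
  obtain ⟨w, ⟨⟨g, hg, rfl⟩, hw⟩, hmin⟩ := Set.exists_min_image _ (fun w => ξ w) hfin2
    ⟨v, ⟨1, Γ.one_mem, rfl⟩, le_rfl⟩
  have hP : ∀ g' ∈ Γ, ξ (g v) ≤ ξ (g' (g v)) := by
    intro g' hg'
    rcases le_total (ξ (g' (g v))) (ξ v) with h1 | h1
    · exact hmin _ ⟨⟨g' * g, Γ.mul_mem hg' hg, rfl⟩, h1⟩
    · exact hw.trans h1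
  have hgv : g v ∈ C := ha.cone g hg v hv
  have hgv0 : g v ≠ 0 := by
    intro h0
    apply hv0
    have := inv_apply' g v
    rw [h0, map_zero] at this
    exact this.symm
  have hgvi : g v ∉ interior C := by
    intro hi
    apply hvi
    have := ha.interior (Γ.inv_mem hg) hi
    rwa [inv_apply'] at this
  exact not_conical h ha D hy₀ hgv hgv0 hgvi hP (conical_of_cocompact h hc hgv)

/-- A cocompact action has a covering by a rational polyhedral cone. -/
theorem cov_of_cocompact (h : Proper C) (ha : Acts C Γ) (hc : Cocompact C Γ) : Cov C Γ :=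
  cov_of_local h ha fun _ hρ _ _ => Or.inl (conical_of_cocompact h hc hρ)

/-- If there are no integral boundary points, a covering gives a cocompact action. -/
theorem cocompact_of_cov (h : Proper C) (hc : Cov C Γ)
    (hint : ∀ v ∈ C, v ∈ IntL n → v ≠ 0 → v ∈ interior C) : Cocompact C Γ := by
  classical
  obtain ⟨S, hS, hcov⟩ := hc
  obtain ⟨y₀, hy₀, -⟩ := exists_int_interior h.smul h.int
  -- compact set: normalised combinations
  let S' := S.filter (· ≠ 0)
  rcases S'.eq_empty_or_nonempty with hne | hne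
  · -- then the interior consists of `0`
    refine ⟨{y₀}, isCompact_singleton, by simpa using hy₀, fun x hx => ?_⟩
    have hz : ∀ z ∈ cone S, z = 0 := by
      rintro z ⟨c, -, rfl⟩
      refine Finset.sum_eq_zero fun a haS => ?_
      have : a = 0 := by
        by_contra h0
        have : a ∈ S' := Finset.mem_filter.2 ⟨haS, h0⟩
        rw [hne] at this
        simp at this
      rw [this, smul_zero]
    have h0 : ∀ x ∈ interior C, x = 0 := by
      intro x hx
      obtain ⟨g, hg, hgx⟩ := hcov x hx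
      have h1 := inv_apply' g x
      rw [hz _ hgx, map_zero] at h1
      exact h1.symm
    obtain ⟨g, hg, hgx⟩ := hcov x hx
    refine ⟨g, hg, y₀, rfl, 1, one_pos, ?_⟩
    rw [hz _ hgx, h0 y₀ hy₀, smul_zero]
  · have hS'i : ∀ a ∈ S', a ∈ interior C := fun a haS => by
      obtain ⟨h1, h2⟩ := Finset.mem_filter.1 haS
      exact hint a (hS a h1).2 (hS a h1).1 h2
    let f : (S' → ℝ) → (Fin n → ℝ) := fun c => ∑ a : S', c a • (a : Fin n → ℝ)
    have hf : Continuous f := by
      simp only [f]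
      fun_prop
    refine ⟨f '' stdSimplex ℝ S', (isCompact_stdSimplex ℝ S').image hf, ?_, ?_⟩
    · rintro _ ⟨c, hc, rfl⟩
      -- some coefficient is positive
      obtain ⟨a, ha⟩ : ∃ a : S', 0 < c a := by
        by_contra hcon
        push Not at hcon
        have h1 : ∑ a, c a ≤ 0 := Finset.sum_nonpos fun a _ => hcon a
        rw [hc.2] at h1
        exact absurd h1 (by norm_num)
      simp only [f]
      rw [← Finset.add_sum_erase _ _ (Finset.mem_univ a)]
      refine interior_add_mem h.add (interior_smul_mem h.smul ha (hS'i _ a.2)) ?_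
      refine Finset.sum_induction _ (fun x => x ∈ C) (fun x y hx hy => h.add x hx y hy) h.zero_mem
        fun b _ => h.smul _ (hc.1 b) _ (interior_subset (hS'i _ b.2))
    · intro x hx
      obtain ⟨g, hg, c, hc0, hgx⟩ := hcov x hx
      set s : ℝ := ∑ a ∈ S', c a with hs
      have hgx' : g x = ∑ a : S', c a • (a : Fin n → ℝ) := by
        rw [hgx, Finset.sum_coe_sort S' (fun a => c a • a)]
        simp only [S']
        rw [Finset.sum_filter]
        refine Finset.sum_congr rfl fun a _ => ?_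
        by_cases h0 : a = 0
        · simp [h0]
        · simp [h0]
      have hs0 : 0 ≤ s := Finset.sum_nonneg fun a _ => hc0 a
      rcases hs0.eq_or_lt with h0 | h0
      · -- then `g x = 0`
        have h1 : ∀ a ∈ S', c a = 0 := fun a haS =>
          (Finset.sum_eq_zero_iff_of_nonneg fun a _ => hc0 a).1 h0.symm a haS
        have h2 : g x = 0 := by
          rw [hgx', Finset.sum_coe_sort S' (fun a => c a • a)]
          exact Finset.sum_eq_zero fun a haS => by rw [h1 a haS, zero_smul]
        have hx0 : x = 0 := by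
          have h3 := inv_apply' g x
          rw [h2, map_zero] at h3
          exact h3.symm
        obtain ⟨a, haS⟩ := hne
        have h4 := hS'i a haS
        exfalso
        -- `0` is interior, so all vectors are zero
        rw [hx0] at hx
        have h5 : -a ∈ C := by
          obtain ⟨t, ht, hta⟩ := interior_sub hx a
          have := h.smul t⁻¹ (inv_nonneg.2 ht.le) _ (interior_subset hta)
          rwa [zero_sub, smul_neg, smul_smul, inv_mul_cancel₀ ht.ne', one_smul] at this
        exact (Finset.mem_filter.1 haS).2 (h.pointed a (interior_subset h4) h5)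
      · refine ⟨g, hg, _, ⟨fun a => s⁻¹ * c a, ⟨fun a => mul_nonneg (inv_nonneg.2 hs0) (hc0 _), ?_⟩,
          rfl⟩, s, h0, ?_⟩
        · rw [← Finset.mul_sum, Finset.sum_coe_sort S' (fun a => c a), ← hs,
            inv_mul_cancel₀ h0.ne']
        · simp only [f]
          rw [hgx', Finset.smul_sum]
          refine Finset.sum_congr rfl fun a _ => ?_
          rw [smul_smul, ← mul_assoc, mul_inv_cancel₀ h0.ne', one_mul]

end Pool.Agent.Helper63.Mc
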