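import Pool.Agent.Helper63.Mc.Defs

/-!
# Dual cones, the contragredient action, and minimal points from a covering

Written by helper80 for helper63.
-/

set_option autoImplicit false

namespace Pool.Agent.Helper63.Mc

open Pool.Agent.Y167 Pool.Agent.N165.KM Matrix

variable {n : ℕ}

/-! ### Functionals and vectors -/

theorem fun_eq (f : (Fin n → ℝ) →L[ℝ] ℝ) (x : Fin n → ℝ) :
    f x = x ⬝ᵥ (fun i => f (Pi.single i 1)) := by
  conv_lhs => rw [← Finset.univ_sum_single x]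
  rw [map_sum]
  unfold dotProduct
  refine Finset.sum_congr rfl fun i _ => ?_
  have : (Pi.single i (x i) : Fin n → ℝ) = x i • Pi.single i 1 := by
    rw [← Pi.single_smul, smul_eq_mul, mul_one]
  rw [this, map_smul, smul_eq_mul]

theorem dot_self_pos {x : Fin n → ℝ} (hx : x ≠ 0) : 0 < x ⬝ᵥ x := by
  have h1 : 0 ≤ x ⬝ᵥ x := Finset.sum_nonneg fun i _ => mul_self_nonneg _
  refine lt_of_le_of_ne h1 fun h => hx ?_
  exact dotProduct_self_eq_zero.1 h.symm

theorem abs_dot_le (x c : Fin n → ℝ) : |x ⬝ᵥ c| ≤ n * (‖x‖ * ‖c‖) := by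
  unfold dotProduct
  refine (Finset.abs_sum_le_sum_abs _ _).trans ?_
  have h : ∀ i ∈ (Finset.univ : Finset (Fin n)), |x i * c i| ≤ ‖x‖ * ‖c‖ := by
    intro i _
    rw [abs_mul]
    have h1 := norm_le_pi_norm x i
    have h2 := norm_le_pi_norm c i
    rw [Real.norm_eq_abs] at h1 h2
    exact mul_le_mul h1 h2 (abs_nonneg _) (norm_nonneg _)
  refine (Finset.sum_le_sum h).trans ?_
  rw [Finset.sum_const, Finset.card_univ, Fintype.card_fin, nsmul_eq_mul]

theorem continuous_dot (c : Fin n → ℝ) : Continuous fun x : Fin n → ℝ => x ⬝ᵥ c := by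
  unfold dotProduct
  fun_prop

theorem continuous_dot' (x : Fin n → ℝ) : Continuous fun c : Fin n → ℝ => x ⬝ᵥ c := by
  unfold dotProduct
  fun_prop

theorem dotProduct_eq_of_all {a b : Fin n → ℝ} (h : ∀ c, c ⬝ᵥ a = c ⬝ᵥ b) : a = b := by
  have h1 : (a - b) ⬝ᵥ (a - b) = 0 := by
    rw [dotProduct_sub, h (a - b), sub_self]
  exact sub_eq_zero.1 (dotProduct_self_eq_zero.1 h1)

/-! ### The dual cone -/

section
variable {C : Set (Fin n → ℝ)}

theorem Proper.zero_mem (h : Proper C) : (0 : Fin n → ℝ) ∈ C := by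
  obtain ⟨y, hy⟩ := h.int
  have := h.smul 0 le_rfl _ (interior_subset hy)
  rwa [zero_smul] at this

theorem Proper.mem_interior_dual (h : Proper C) {c : Fin n → ℝ} :
    c ∈ interior (dual C) ↔ ∀ x ∈ C, x ≠ 0 → 0 < x ⬝ᵥ c := by
  constructor
  · intro hc x hx hx0
    obtain ⟨t, ht, h1⟩ := interior_sub hc x
    have h2 := interior_subset h1 x hx
    rw [dotProduct_sub, dotProduct_smul, smul_eq_mul] at h2
    have h3 := mul_pos ht (dot_self_pos hx0)
    linarith
  · intro hc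
    have hK : IsCompact (C ∩ Metric.sphere (0 : Fin n → ℝ) 1) :=
      (isCompact_sphere 0 1).inter_left h.closed
    obtain ⟨m, hm, hmin⟩ : ∃ m : ℝ, 0 < m ∧ ∀ x ∈ C, m * ‖x‖ ≤ x ⬝ᵥ c := by
      by_cases hne : (C ∩ Metric.sphere (0 : Fin n → ℝ) 1).Nonempty
      · obtain ⟨z, hz, hmin⟩ := hK.exists_isMinOn hne (continuous_dot c).continuousOn
        have hz0 : z ≠ 0 := by
          rintro rfl
          have := hz.2
          simp at this
        refine ⟨z ⬝ᵥ c, hc z hz.1 hz0, fun x hx => ?_⟩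
        by_cases hx0 : x = 0
        · rw [hx0]; simp
        · have hn : 0 < ‖x‖ := norm_pos_iff.2 hx0
          have h1 : ‖x‖⁻¹ • x ∈ C ∩ Metric.sphere (0 : Fin n → ℝ) 1 := by
            refine ⟨h.smul _ (inv_nonneg.2 hn.le) x hx, ?_⟩
            rw [mem_sphere_zero_iff_norm, norm_smul, norm_inv, norm_norm, inv_mul_cancel₀ hn.ne']
          have h2 : z ⬝ᵥ c ≤ (‖x‖⁻¹ • x) ⬝ᵥ c := hmin h1
          rw [smul_dotProduct, smul_eq_mul] at h2
          calc z ⬝ᵥ c * ‖x‖ ≤ (‖x‖⁻¹ * (x ⬝ᵥ c)) * ‖x‖ := mul_le_mul_of_nonneg_right h2 hn.le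
            _ = x ⬝ᵥ c := by field_simp
      · refine ⟨1, one_pos, fun x hx => ?_⟩
        by_cases hx0 : x = 0
        · rw [hx0]; simp
        · exfalso
          have hn : 0 < ‖x‖ := norm_pos_iff.2 hx0
          exact hne ⟨‖x‖⁻¹ • x, h.smul _ (inv_nonneg.2 hn.le) x hx, by
            rw [mem_sphere_zero_iff_norm, norm_smul, norm_inv, norm_norm, inv_mul_cancel₀ hn.ne']⟩
    rw [mem_interior]
    have hn1 : (0 : ℝ) < n + 1 := by positivity
    refine ⟨Metric.ball c (m / (n + 1)), ?_, Metric.isOpen_ball,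
      Metric.mem_ball_self (by positivity)⟩
    intro c' hc' x hx
    rw [mem_ball_iff_norm] at hc'
    have h1 := abs_dot_le x (c' - c)
    rw [dotProduct_sub] at h1
    have h2 := (abs_le.1 h1).1
    have h3 := hmin x hx
    have h4 : (n : ℝ) * (‖x‖ * ‖c' - c‖) ≤ m * ‖x‖ := by
      have h5 : ‖c' - c‖ * (n + 1) ≤ m := by
        rw [lt_div_iff₀ hn1] at hc'
        exact hc'.le
      have h6 := mul_le_mul_of_nonneg_right h5 (norm_nonneg x)
      have h7 := mul_nonneg (norm_nonneg x) (norm_nonneg (c' - c))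
      nlinarith
    linarith

theorem Proper.subset_dual_dual (_h : Proper C) : C ⊆ dual (dual C) := by
  intro x hx c hc
  rw [dotProduct_comm]
  exact hc x hx

theorem Proper.dual_dual (h : Proper C) : Pool.Agent.Helper63.Mc.dual (Pool.Agent.Helper63.Mc.dual C) = C := by
  refine Set.Subset.antisymm ?_ h.subset_dual_dual
  intro x hx
  by_contra hnot
  have hconv : Convex ℝ C := by
    intro a ha b hb s t hs ht _
    exact h.add _ (h.smul s hs a ha) _ (h.smul t ht b hb)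
  obtain ⟨f, u, h1, h2⟩ := geometric_hahn_banach_point_closed hconv h.closed hnot
  have hu : u < 0 := by
    have := h2 0 h.zero_mem
    rwa [map_zero] at this
  have hf : ∀ y ∈ C, 0 ≤ f y := by
    intro y hy
    by_contra hneg
    push Not at hneg
    have h3 := h2 ((u / f y) • y) (h.smul _ (div_nonneg_of_nonpos hu.le hneg.le) y hy)
    rw [map_smul, smul_eq_mul, div_mul_cancel₀ _ hneg.ne] at h3
    exact lt_irrefl _ h3
  have h4 : (fun i => f (Pi.single i 1)) ∈ Pool.Agent.Helper63.Mc.dual C := by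
    intro y hy
    rw [← fun_eq]
    exact hf y hy
  have h5 := hx _ h4
  rw [dotProduct_comm, ← fun_eq] at h5
  linarith

theorem isClosed_dual (C : Set (Fin n → ℝ)) : IsClosed (dual C) := by
  have e : dual C = ⋂ x ∈ C, {c | 0 ≤ x ⬝ᵥ c} := by
    ext c
    simp only [Set.mem_iInter, Set.mem_ofPred_eq]
    rfl
  rw [e]
  exact isClosed_biInter fun x _ => isClosed_le continuous_const (continuous_dot' x)

theorem Proper.dual (h : Proper C) : Proper (Pool.Agent.Helper63.Mc.dual C) where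
  closed := isClosed_dual C
  add := fun c hc d hd x hx => by
    rw [dotProduct_add]
    exact add_nonneg (hc x hx) (hd x hx)
  smul := fun t ht c hc x hx => by
    rw [dotProduct_smul, smul_eq_mul]
    exact mul_nonneg ht (hc x hx)
  pointed := by
    intro c hc hc'
    have h1 : ∀ x ∈ C, x ⬝ᵥ c = 0 := by
      intro x hx
      have h2 := hc x hx
      have h3 := hc' x hx
      rw [dotProduct_neg] at h3
      linarith
    obtain ⟨y, hy⟩ := h.int
    obtain ⟨t, ht, h4⟩ := interior_sub hy c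
    have h5 := h1 _ (interior_subset h4)
    rw [sub_dotProduct, smul_dotProduct, h1 y (interior_subset hy), smul_eq_mul, zero_sub,
      neg_eq_zero, mul_eq_zero] at h5
    rcases h5 with h5 | h5
    · exact absurd h5 ht.ne'
    · exact dotProduct_self_eq_zero.1 h5
  int := by
    obtain ⟨f, c, hc, hf⟩ := exists_pos_functional h.closed h.add h.smul h.pointed
    refine ⟨fun i => f (Pi.single i 1), h.mem_interior_dual.2 fun x hx hx0 => ?_⟩
    rw [← fun_eq]
    have h1 := hf x hx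
    have h2 : 0 < ‖x‖ := norm_pos_iff.2 hx0
    have := mul_pos hc h2
    linarith

end

/-! ### The contragredient action -/

theorem contra_dot (g : (Fin n → ℝ) ≃ₗ[ℝ] (Fin n → ℝ)) (x c : Fin n → ℝ) :
    g x ⬝ᵥ contra g c = x ⬝ᵥ c := by
  have e : contra g c =
      (LinearMap.toMatrix' (g.symm : (Fin n → ℝ) →ₗ[ℝ] (Fin n → ℝ)))ᵀ *ᵥ c := by
    unfold contra
    rfl
  rw [e, dotProduct_mulVec, vecMul_transpose]
  have e2 : (LinearMap.toMatrix' (g.symm : (Fin n → ℝ) →ₗ[ℝ] (Fin n → ℝ))) *ᵥ (g x) = x := by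
    rw [← Matrix.toLin'_apply, Matrix.toLin'_toMatrix']
    exact g.symm_apply_apply x
  rw [e2]

theorem eq_contra {g k : (Fin n → ℝ) ≃ₗ[ℝ] (Fin n → ℝ)}
    (h : ∀ x c, g x ⬝ᵥ k c = x ⬝ᵥ c) : k = contra g := by
  ext1 c
  apply dotProduct_eq_of_all
  intro x
  obtain ⟨y, rfl⟩ := g.surjective x
  rw [h, contra_dot]

theorem contra_contra (g : (Fin n → ℝ) ≃ₗ[ℝ] (Fin n → ℝ)) : contra (contra g) = g := by
  symm
  apply eq_contra
  intro c x
  rw [dotProduct_comm, contra_dot, dotProduct_comm]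

/-- The contragredient as a homomorphism. -/
noncomputable def contraHom : ((Fin n → ℝ) ≃ₗ[ℝ] (Fin n → ℝ)) →* ((Fin n → ℝ) ≃ₗ[ℝ] (Fin n → ℝ)) where
  toFun := contra
  map_one' := by
    symm
    apply eq_contra
    intro x c
    rfl
  map_mul' g h := by
    symm
    apply eq_contra
    intro x c
    show g (h x) ⬝ᵥ contra g (contra h c) = _
    rw [contra_dot, contra_dot]

@[simp] theorem contraHom_apply (g : (Fin n → ℝ) ≃ₗ[ℝ] (Fin n → ℝ)) : contraHom g = contra g := rfl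

theorem map_map (Γ : Subgroup ((Fin n → ℝ) ≃ₗ[ℝ] (Fin n → ℝ))) :
    (Γ.map contraHom).map contraHom = Γ := by
  rw [Subgroup.map_map]
  have e : (contraHom (n := n)).comp contraHom = MonoidHom.id _ := by
    ext1 g
    exact contra_contra g
  rw [e, Subgroup.map_id]

section
variable {C : Set (Fin n → ℝ)} {Γ : Subgroup ((Fin n → ℝ) ≃ₗ[ℝ] (Fin n → ℝ))}

theorem inv_apply (g : (Fin n → ℝ) ≃ₗ[ℝ] (Fin n → ℝ)) (x : Fin n → ℝ) : g (g⁻¹ x) = x := by
  have : (g * g⁻¹) x = x := by rw [mul_inv_cancel]; rfl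
  exact this

theorem inv_apply' (g : (Fin n → ℝ) ≃ₗ[ℝ] (Fin n → ℝ)) (x : Fin n → ℝ) : g⁻¹ (g x) = x := by
  have : (g⁻¹ * g) x = x := by rw [inv_mul_cancel]; rfl
  exact this

theorem dot_contra (g : (Fin n → ℝ) ≃ₗ[ℝ] (Fin n → ℝ)) (x c : Fin n → ℝ) :
    x ⬝ᵥ contra g c = g⁻¹ x ⬝ᵥ c := by
  have := contra_dot g (g⁻¹ x) c
  rwa [inv_apply] at this

theorem Acts.dual (h : Acts C Γ) : Acts (Pool.Agent.Helper63.Mc.dual C) (Γ.map contraHom) where
  int := by
    rintro _ ⟨g, hg, rfl⟩ c hc i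
    show ∃ m : ℤ, contra g c i = m
    have e1 : contra g c i = (Pi.single i 1 : Fin n → ℝ) ⬝ᵥ contra g c := by
      rw [single_dotProduct, one_mul]
    have h1 : (Pi.single i 1 : Fin n → ℝ) ∈ IntL n := by
      intro l
      by_cases hl : l = i
      · subst hl
        exact ⟨1, by simp⟩
      · exact ⟨0, by simp [hl]⟩
    have h2 := h.int g⁻¹ (Γ.inv_mem hg) _ h1
    rw [e1, dot_contra]
    choose a ha using h2
    choose b hb using hc
    refine ⟨∑ l, a l * b l, ?_⟩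
    unfold dotProduct
    push_cast
    exact Finset.sum_congr rfl fun l _ => by rw [ha, hb]
  cone := by
    rintro _ ⟨g, hg, rfl⟩ c hc x hx
    show 0 ≤ x ⬝ᵥ contra g c
    rw [dot_contra]
    exact hc _ (h.cone g⁻¹ (Γ.inv_mem hg) x hx)

/-! ### Minimal points -/

theorem Acts.interior (h : Acts C Γ) {g : (Fin n → ℝ) ≃ₗ[ℝ] (Fin n → ℝ)} (hg : g ∈ Γ)
    {x : Fin n → ℝ} (hx : x ∈ interior C) : g x ∈ interior C := by
  rw [mem_interior] at hx ⊢
  obtain ⟨U, hU, hUo, hxU⟩ := hx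
  have hc : Continuous (g⁻¹ : (Fin n → ℝ) ≃ₗ[ℝ] (Fin n → ℝ)) :=
    LinearMap.continuous_of_finiteDimensional
      ((g⁻¹ : (Fin n → ℝ) ≃ₗ[ℝ] (Fin n → ℝ)) : (Fin n → ℝ) →ₗ[ℝ] (Fin n → ℝ))
  refine ⟨(g⁻¹ : (Fin n → ℝ) ≃ₗ[ℝ] (Fin n → ℝ)) ⁻¹' U, ?_, hUo.preimage hc, ?_⟩
  · intro y hy
    have h1 := h.cone g hg _ (hU hy)
    rwa [inv_apply] at h1
  · show g⁻¹ (g x) ∈ U
    rw [inv_apply']
    exact hxU

theorem Acts.isMin (h : Acts C Γ) {g : (Fin n → ℝ) ≃ₗ[ℝ] (Fin n → ℝ)} (hg : g ∈ Γ)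
    {x : Fin n → ℝ} (hx : IsMin C x) : IsMin C (g x) := by
  refine ⟨h.interior hg hx.1, h.int g hg x hx.2.1, fun y z hy hyL hz hzL he => ?_⟩
  have hg' := Γ.inv_mem hg
  have h1 : x = g⁻¹ y + g⁻¹ z := by
    rw [← map_add, ← he, inv_apply']
  have h2 := hx.2.2 _ _ (h.interior hg' hy) (h.int _ hg' y hyL) (h.cone _ hg' z hz)
    (h.int _ hg' z hzL) h1
  have h3 := inv_apply g z
  rw [h2, map_zero] at h3
  exact h3.symm

theorem minFin_of_cov (h : Proper C) (ha : Acts C Γ) (hc : Cov C Γ) : MinFin C Γ := by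
  classical
  obtain ⟨S, hS, hcov⟩ := hc
  have hfin := finite_bdd (ρ := n) (∑ a ∈ S, ‖a‖)
  refine ⟨hfin.toFinset, fun x hx => ?_⟩
  obtain ⟨g, hg, hgx⟩ := hcov x hx.1
  refine ⟨g, hg, ?_⟩
  rw [Set.Finite.mem_toFinset]
  have hmin := ha.isMin hg hx
  obtain ⟨y, hy⟩ : ∃ y, y = g x := ⟨_, rfl⟩
  rw [← hy] at hgx hmin ⊢
  refine ⟨hmin.2.1, ?_⟩
  obtain ⟨c, hc0, hyc⟩ := hgx
  have hle : ∀ a ∈ S, a ≠ 0 → c a ≤ 1 := by
    intro a haS ha0
    by_contra hgt
    push Not at hgt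
    have hc1 : 0 < c a := by linarith
    have h1 : (c a)⁻¹ • y - a ∈ C := by
      have e1 : (c a)⁻¹ • y - a = ∑ b ∈ S.erase a, ((c a)⁻¹ * c b) • b := by
        rw [hyc, Finset.smul_sum, ← Finset.add_sum_erase S _ haS, smul_smul,
          inv_mul_cancel₀ hc1.ne', one_smul, add_sub_cancel_left]
        exact Finset.sum_congr rfl fun b _ => smul_smul _ _ _
      rw [e1]
      have key : ∀ T : Finset (Fin n → ℝ), T ⊆ S → ∑ b ∈ T, ((c a)⁻¹ * c b) • b ∈ C := by
        intro T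
        induction T using Finset.induction_on with
        | empty =>
          intro _
          rw [Finset.sum_empty]
          exact h.zero_mem
        | insert b T hb ih =>
          intro hT
          rw [Finset.sum_insert hb]
          refine h.add _ (h.smul _ (mul_nonneg (inv_nonneg.2 hc1.le) (hc0 b)) _
            (hS b (hT (Finset.mem_insert_self _ _))).2) _
            (ih fun w hw => hT (Finset.mem_insert_of_mem hw))
      exact key _ (Finset.erase_subset _ _)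
    have hε : 0 < 1 - (c a)⁻¹ := by
      rw [sub_pos]
      exact inv_lt_one_of_one_lt₀ hgt
    have h2 : y - a ∈ interior C := by
      have e2 : y - a = (1 - (c a)⁻¹) • y + ((c a)⁻¹ • y - a) := by
        rw [sub_smul, one_smul]
        abel
      rw [e2]
      exact interior_add_mem h.add (interior_smul_mem h.smul hε hmin.1) h1
    exact ha0 (hmin.2.2 (y - a) a h2 ((IntL n).sub_mem hmin.2.1 (hS a haS).1) (hS a haS).2
      (hS a haS).1 (by abel))
  rw [hyc]
  refine (norm_sum_le _ _).trans (Finset.sum_le_sum fun a haS => ?_)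
  rw [norm_smul, Real.norm_eq_abs, abs_of_nonneg (hc0 a)]
  by_cases ha0 : a = 0
  · rw [ha0]; simp
  · exact mul_le_of_le_one_left (norm_nonneg _) (hle a haS ha0)

end

end Pool.Agent.Helper63.Mc
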