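import Mathlib

/-!
# Homogeneous elements of a finitely generated graded subalgebra
-/

set_option autoImplicit false

namespace Pool.Agent.Helper63.Mc

/-- Let the subalgebra generated by the homogeneous components with degrees in the monoid `M` be
finitely generated, and `U` a set of degrees in `M`. The components with degrees in `U` are generated
by finitely many of their elements over the components with degrees in `M`. -/
theorem graded_gen {ι R : Type*} [DecidableEq ι] [AddCommMonoid ι] [CommRing R] [Algebra ℂ R]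
    (𝒜 : ι → Submodule ℂ R) [GradedAlgebra 𝒜] (M : AddSubmonoid ι) (U : Set ι)
    (hU : ∀ D ∈ U, D ∈ M) (hfg : (Algebra.adjoin ℂ (⋃ D ∈ M, (𝒜 D : Set R))).FG) :
    ∃ G : Finset R, (∀ g ∈ G, ∃ D ∈ U, g ∈ 𝒜 D) ∧ ∀ D ∈ U, ∀ s ∈ 𝒜 D,
      s ∈ Submodule.span ℂ {x | ∃ g ∈ G, ∃ N ∈ M, ∃ r ∈ 𝒜 N, x = r * g} := by
  classical
  set A := Algebra.adjoin ℂ (⋃ D ∈ M, (𝒜 D : Set R)) with hA
  have hft : Algebra.FiniteType ℂ A := (Subalgebra.fg_iff_finiteType A).1 hfg
  have hnoeth : IsNoetherianRing A := Algebra.FiniteType.isNoetherianRing ℂ A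
  have hmemA : ∀ D ∈ M, ∀ s ∈ 𝒜 D, s ∈ A := fun D hD s hs =>
    Algebra.subset_adjoin (Set.mem_biUnion hD hs)
  let X : Set A := {x | ∃ D ∈ U, (x : R) ∈ 𝒜 D}
  have hfgI : (Submodule.span A X).FG := IsNoetherian.noetherian _
  obtain ⟨G, hGX, hG⟩ := (Submodule.fg_span_iff_fg_span_finset_subset X).1 hfgI
  refine ⟨G.image (fun x : A => (x : R)), ?_, ?_⟩
  · intro g hg
    obtain ⟨x, hx, rfl⟩ := Finset.mem_image.1 hg
    exact hGX hx
  · intro D hD s hs
    have hsA : s ∈ A := hmemA D (hU D hD) s hs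
    have h1 : (⟨s, hsA⟩ : A) ∈ Submodule.span A (G : Set A) := by
      rw [← hG]
      exact Submodule.subset_span ⟨D, hD, hs⟩
    -- elements of A are sums of homogeneous elements
    have hhom : ∀ a ∈ A, a ∈ Submodule.span ℂ (⋃ D ∈ M, (𝒜 D : Set R)) := by
      intro a ha
      induction ha using Algebra.adjoin_induction with
      | mem x hx => exact Submodule.subset_span hx
      | algebraMap r =>
        refine Submodule.subset_span (Set.mem_biUnion M.zero_mem ?_)
        exact SetLike.algebraMap_mem_graded 𝒜 r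
      | add x y _ _ hx hy => exact Submodule.add_mem _ hx hy
      | mul x y _ _ hx hy =>
        have h2 : (Submodule.span ℂ (⋃ D ∈ M, (𝒜 D : Set R))) * (Submodule.span ℂ (⋃ D ∈ M, (𝒜 D : Set R)))
            ≤ Submodule.span ℂ (⋃ D ∈ M, (𝒜 D : Set R)) := by
          rw [Submodule.span_mul_span]
          refine Submodule.span_mono ?_
          rintro _ ⟨a, ha, b, hb, rfl⟩
          simp only [Set.mem_iUnion] at ha hb ⊢
          obtain ⟨D, hD, ha⟩ := ha
          obtain ⟨D', hD', hb⟩ := hb
          exact ⟨D + D', M.add_mem hD hD', SetLike.mul_mem_graded ha hb⟩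
        exact h2 (Submodule.mul_mem_mul hx hy)
    have h3 : ∀ y : A, y ∈ Submodule.span A (G : Set A) → (y : R) ∈ Submodule.span ℂ
        {x | ∃ g ∈ G.image (fun x : A => (x : R)), ∃ N ∈ M, ∃ r ∈ 𝒜 N, x = r * g} := by
      intro y hy
      induction hy using Submodule.span_induction with
      | mem x hx =>
        refine Submodule.subset_span ⟨x, Finset.mem_image_of_mem _ hx, 0, M.zero_mem, 1,
          SetLike.one_mem_graded 𝒜, (one_mul _).symm⟩
      | zero => simp
      | add x y _ _ hx hy => exact Submodule.add_mem _ hx hy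
      | smul a x _ hx =>
        -- multiply
        have h4 : ∀ b ∈ Submodule.span ℂ (⋃ D ∈ M, (𝒜 D : Set R)), ∀ z ∈ Submodule.span ℂ
            {x | ∃ g ∈ G.image (fun x : A => (x : R)), ∃ N ∈ M, ∃ r ∈ 𝒜 N, x = r * g},
            b * z ∈ Submodule.span ℂ
            {x | ∃ g ∈ G.image (fun x : A => (x : R)), ∃ N ∈ M, ∃ r ∈ 𝒜 N, x = r * g} := by
          intro b hb z hz
          have h5 := Submodule.mul_mem_mul hb hz
          rw [Submodule.span_mul_span] at h5
          refine Submodule.span_mono ?_ h5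
          rintro _ ⟨a, ha, _, ⟨g, hg, N, hN, r, hr, rfl⟩, rfl⟩
          simp only [Set.mem_iUnion] at ha
          obtain ⟨D, hD, ha⟩ := ha
          exact ⟨g, hg, D + N, M.add_mem hD hN, a * r, SetLike.mul_mem_graded ha hr,
            (mul_assoc _ _ _).symm⟩
        exact h4 a (hhom a a.2) x hx
    exact h3 _ h1

end Pool.Agent.Helper63.Mc
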