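import Pool.Graph.R_pool_sql_team_seeded_63374d34.N165.KM.Core

/-!
# Minimal interior lattice points of a cone with a group action: definitions
-/

set_option autoImplicit false

namespace Pool.Agent.Helper63.Mc

open Pool.Agent.Y167 Pool.Agent.N165.KM Matrix

variable {n : ℕ}

/-- `C` is a closed convex cone without lines and with interior points. -/
structure Proper (C : Set (Fin n → ℝ)) : Prop where
  closed : IsClosed C
  add : ∀ x ∈ C, ∀ y ∈ C, x + y ∈ C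
  smul : ∀ t : ℝ, 0 ≤ t → ∀ x ∈ C, t • x ∈ C
  pointed : ∀ x ∈ C, -x ∈ C → x = 0
  int : (interior C).Nonempty

/-- The dual cone. -/
def dual (C : Set (Fin n → ℝ)) : Set (Fin n → ℝ) := {c | ∀ x ∈ C, 0 ≤ x ⬝ᵥ c}

/-- `x` is an integral point of the interior which is not the sum of another one and a nonzero
integral point of the cone. -/
def IsMin (C : Set (Fin n → ℝ)) (x : Fin n → ℝ) : Prop :=
  x ∈ interior C ∧ x ∈ IntL n ∧
    ∀ y z, y ∈ interior C → y ∈ IntL n → z ∈ C → z ∈ IntL n → x = y + z → z = 0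

/-- The group preserves the integral points and the cone. -/
structure Acts (C : Set (Fin n → ℝ)) (Γ : Subgroup ((Fin n → ℝ) ≃ₗ[ℝ] (Fin n → ℝ))) : Prop where
  int : ∀ g ∈ Γ, ∀ x ∈ IntL n, g x ∈ IntL n
  cone : ∀ g ∈ Γ, ∀ x ∈ C, g x ∈ C

/-- The interior is covered by the translates of a rational polyhedral cone in `C`. -/
def Cov (C : Set (Fin n → ℝ)) (Γ : Subgroup ((Fin n → ℝ) ≃ₗ[ℝ] (Fin n → ℝ))) : Prop :=
  ∃ S : Finset (Fin n → ℝ), (∀ a ∈ S, a ∈ IntL n ∧ a ∈ C) ∧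
    ∀ x ∈ interior C, ∃ g ∈ Γ, g x ∈ Pool.Agent.Y167.cone S

/-- The minimal points form finitely many orbits. -/
def MinFin (C : Set (Fin n → ℝ)) (Γ : Subgroup ((Fin n → ℝ) ≃ₗ[ℝ] (Fin n → ℝ))) : Prop :=
  ∃ F : Finset (Fin n → ℝ), ∀ x, IsMin C x → ∃ g ∈ Γ, g x ∈ F

/-- The inverse transpose. -/
noncomputable def contra (g : (Fin n → ℝ) ≃ₗ[ℝ] (Fin n → ℝ)) : (Fin n → ℝ) ≃ₗ[ℝ] (Fin n → ℝ) :=
  LinearEquiv.ofLinearMap (Matrix.toLin' (LinearMap.toMatrix' (g.symm : (Fin n → ℝ) →ₗ[ℝ] (Fin n → ℝ)))ᵀ)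
    (Matrix.toLin' (LinearMap.toMatrix' (g : (Fin n → ℝ) →ₗ[ℝ] (Fin n → ℝ)))ᵀ)
    (by
      rw [← Matrix.toLin'_mul, ← Matrix.transpose_mul, ← LinearMap.toMatrix'_comp]
      simp)
    (by
      rw [← Matrix.toLin'_mul, ← Matrix.transpose_mul, ← LinearMap.toMatrix'_comp]
      simp)

end Pool.Agent.Helper63.Mc
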