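import Pool.Agent.Helper63.Mc.Near

/-!
# The tangent cones of the lattice points of an open convex cone are finitely generated
-/

set_option autoImplicit false

namespace Pool.Agent.Helper63.Mc

open Finset Filter Topology Pool.Agent.Y167 Module

variable {n : ℕ}

/-- A linear projection with a given kernel. -/
theorem exists_proj (V : Submodule ℝ (Fin n → ℝ)) (hV : V ≠ ⊥) :
    ∃ (m : ℕ) (π : (Fin n → ℝ) →ₗ[ℝ] (Fin m → ℝ)), m < n ∧ Function.Surjective π ∧
      LinearMap.ker π = V := by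
  have h1 := Submodule.finrank_quotient_add_finrank V
  have h2 : 0 < finrank ℝ V := by
    rw [Module.finrank_pos_iff]
    exact Submodule.nontrivial_iff_ne_bot.2 hV
  rw [finrank_fin_fun] at h1
  let e : ((Fin n → ℝ) ⧸ V) ≃ₗ[ℝ] (Fin (finrank ℝ ((Fin n → ℝ) ⧸ V)) → ℝ) :=
    LinearEquiv.ofFinrankEq _ _ (by simp)
  refine ⟨finrank ℝ ((Fin n → ℝ) ⧸ V), (e : _ →ₗ[ℝ] _) ∘ₗ V.mkQ, by omega, ?_, ?_⟩
  · intro z
    obtain ⟨q, rfl⟩ := e.surjective z
    obtain ⟨x, rfl⟩ := V.mkQ_surjective q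
    exact ⟨x, rfl⟩
  · rw [LinearMap.ker_comp, LinearEquiv.ker, Submodule.comap_bot, Submodule.ker_mkQ]

/-- The image of a lattice under a projection along a subspace spanned by lattice vectors. -/
theorem IsLat.map {L : AddSubgroup (Fin n → ℝ)} (hL : IsLat L) {m : ℕ}
    {π : (Fin n → ℝ) →ₗ[ℝ] (Fin m → ℝ)} (hπ : Function.Surjective π) {k : ℕ}
    {y : Fin k → (Fin n → ℝ)} (hy : ∀ i, y i ∈ L)
    (hker : LinearMap.ker π = Submodule.span ℝ (Set.range y)) :
    IsLat (L.map π.toAddMonoidHom) := by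
  constructor
  · have h1 : ((L.map π.toAddMonoidHom : AddSubgroup (Fin m → ℝ)) : Set (Fin m → ℝ)) = π '' L := rfl
    rw [h1, Submodule.span_image, hL.span, Submodule.map_top, LinearMap.range_eq_top.2 hπ]
  · intro R
    obtain ⟨σ, hσ⟩ := π.exists_rightInverse_of_surjective (LinearMap.range_eq_top.2 hπ)
    let σ' : (Fin m → ℝ) →L[ℝ] (Fin n → ℝ) := LinearMap.toContinuousLinearMap σ
    refine ((hL.fin (‖σ'‖ * |R| + ∑ i, ‖y i‖)).image π).subset ?_
    rintro _ ⟨⟨l, hl, rfl⟩, hR⟩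
    change ‖π l‖ ≤ R at hR
    have h1 : σ (π l) - l ∈ LinearMap.ker π := by
      rw [LinearMap.mem_ker, map_sub]
      have := LinearMap.congr_fun hσ (π l)
      rw [LinearMap.comp_apply, LinearMap.id_apply] at this
      rw [this, sub_self]
    rw [hker] at h1
    have h1' : l - σ (π l) ∈ Submodule.span ℝ (Set.range y) := by
      rw [← neg_sub]; exact Submodule.neg_mem _ h1
    obtain ⟨w, hwL, hwV, c, hc, hwc⟩ := split_ceil y hy h1'
    refine ⟨l + w, ⟨L.add_mem hl hwL, ?_⟩, ?_⟩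
    · have h2 : l + w = σ' (π l) + ∑ i, c i • y i := by
        rw [← hwc]
        change l + w = σ (π l) + _
        abel
      rw [h2]
      refine (norm_add_le _ _).trans (add_le_add ?_ (norm_sum_le_of_Icc y hc))
      refine (σ'.le_opNorm _).trans (mul_le_mul_of_nonneg_left ?_ (norm_nonneg _))
      exact hR.trans (le_abs_self R)
    · rw [map_add]
      have : π w = 0 := by
        rw [← LinearMap.mem_ker, hker]; exact hwV
      rw [this, add_zero]
      rfl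

section Open

variable {O : Set (Fin n → ℝ)}

theorem add_closure (hO : IsOpen O) (hadd : ∀ x ∈ O, ∀ y ∈ O, x + y ∈ O) {x y : Fin n → ℝ}
    (hx : x ∈ O) (hy : y ∈ closure O) : x + y ∈ O := by
  obtain ⟨ε, hε, hball⟩ := Metric.isOpen_iff.1 hO x hx
  obtain ⟨z, hz, hyz⟩ := Metric.mem_closure_iff.1 hy ε hε
  have h1 : x + (y - z) ∈ O := by
    apply hball
    rw [mem_ball_iff_norm, add_sub_cancel_left, ← dist_eq_norm]
    exact hyz
  have h2 := hadd _ h1 _ hz
  have h3 : x + (y - z) + z = x + y := by abel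
  rwa [h3] at h2

theorem smul_closure (hsmul : ∀ t : ℝ, 0 < t → ∀ x ∈ O, t • x ∈ O) {t : ℝ} (ht : 0 < t)
    {y : Fin n → ℝ} (hy : y ∈ closure O) : t • y ∈ closure O := by
  have h1 : Continuous fun x : Fin n → ℝ => t • x := continuous_const_smul t
  exact map_mem_closure h1 hy fun x hx => hsmul t ht x hx

theorem add_ray (hO : IsOpen O) (hadd : ∀ x ∈ O, ∀ y ∈ O, x + y ∈ O)
    (hsmul : ∀ t : ℝ, 0 < t → ∀ x ∈ O, t • x ∈ O) {x ρ : Fin n → ℝ} (hx : x ∈ O)
    (hρ : ρ ∈ closure O) {t : ℝ} (ht : 0 ≤ t) : x + t • ρ ∈ O := by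
  rcases ht.eq_or_lt with rfl | ht
  · simpa using hx
  · exact add_closure hO hadd hx (smul_closure hsmul ht hρ)

end Open

/-- The statement of the finite generation. -/
def TanFG (n : ℕ) : Prop :=
  ∀ L : AddSubgroup (Fin n → ℝ), IsLat L → ∀ O : Set (Fin n → ℝ), IsOpen O →
    (∀ x ∈ O, ∀ y ∈ O, x + y ∈ O) → (∀ t : ℝ, 0 < t → ∀ x ∈ O, t • x ∈ O) →
    ∀ f ∈ O, f ∈ L → ∃ F : Finset (Fin n → ℝ), (∀ a ∈ F, a ∈ L ∧ a + f ∈ O) ∧
      ∀ x ∈ L, x + f ∈ O → x ∈ cone F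

/-- The local statement near a direction. -/
theorem step (ih : ∀ m < n, TanFG m) {L : AddSubgroup (Fin n → ℝ)} (hL : IsLat L)
    {O : Set (Fin n → ℝ)} (hO : IsOpen O) (hadd : ∀ x ∈ O, ∀ y ∈ O, x + y ∈ O)
    (hsmul : ∀ t : ℝ, 0 < t → ∀ x ∈ O, t • x ∈ O) {f : Fin n → ℝ} (hf : f ∈ O) (hfL : f ∈ L)
    {ρ : Fin n → ℝ} (hρ : ρ ∈ closure O) (hρ0 : ρ ≠ 0) :
    ∃ F : Finset (Fin n → ℝ), (∀ a ∈ F, a ∈ L ∧ a + f ∈ O) ∧ ∃ ε : ℝ, 0 < ε ∧
      ∀ x ∈ L, x + f ∈ O → ∀ t : ℝ, 0 < t → ‖x - t • ρ‖ ≤ ε * t → x ∈ cone F := by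
  classical
  obtain ⟨r, hr, hball⟩ := Metric.isOpen_iff.1 hO f hf
  obtain ⟨δ₀, hδ₀, hδr, hst⟩ := near_stable L ρ hr
  obtain ⟨Y, hY, ε₁, hε₁, hYc⟩ := local_cone hL hρ0 hδ₀ hst
  set V := Submodule.span ℝ (Near L ρ δ₀) with hV
  have hρV : ρ ∈ V := mem_near_span hL ρ hδ₀
  have hVne : V ≠ ⊥ := by
    intro h
    rw [h, Submodule.mem_bot] at hρV
    exact hρ0 hρV
  obtain ⟨m, π, hm, hπ, hker⟩ := exists_proj V hVne
  -- near vectors are in the set
  have hnear : ∀ a ∈ Near L ρ δ₀, a ∈ L ∧ a + f ∈ O := by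
    rintro a ⟨ha, t, ht, hat⟩
    refine ⟨ha, ?_⟩
    have h1 : f + (a - t • ρ) ∈ O := by
      apply hball
      rw [mem_ball_iff_norm, add_sub_cancel_left]
      exact lt_of_lt_of_le hat hδr
    have h2 := add_ray hO hadd hsmul h1 hρ ht
    have h3 : f + (a - t • ρ) + t • ρ = a + f := by abel
    rwa [h3] at h2
  -- the quotient
  obtain ⟨k₀, y₀, -, hy₀N, hy₀s⟩ := exists_family (Near L ρ δ₀)
  have hLm : IsLat (L.map π.toAddMonoidHom) :=
    hL.map hπ (fun i => (hy₀N i).1) (by rw [hker, hy₀s])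
  have hOm : IsOpen (π '' O) := LinearMap.isOpenMap_of_finiteDimensional π hπ O hO
  obtain ⟨F', hF', hF'c⟩ := ih m hm (L.map π.toAddMonoidHom) hLm (π '' O) hOm
    (by
      rintro _ ⟨x, hx, rfl⟩ _ ⟨y, hy, rfl⟩
      exact ⟨x + y, hadd x hx y hy, map_add _ _ _⟩)
    (by
      rintro t ht _ ⟨x, hx, rfl⟩
      exact ⟨t • x, hsmul t ht x hx, map_smul _ _ _⟩)
    (π f) ⟨f, hf, rfl⟩ ⟨f, hfL, rfl⟩
  -- lifts
  have hlift : ∀ a' ∈ F', ∃ a, (a ∈ L ∧ a + f ∈ O) ∧ π a = a' := by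
    intro a' ha'
    obtain ⟨⟨l, hl, hla⟩, o, ho, hoa⟩ := hF' a' ha'
    change π l = a' at hla
    obtain ⟨ε, hε, hballo⟩ := Metric.isOpen_iff.1 hO o ho
    have hmemV : l + f - o ∈ V := by
      rw [← hker, LinearMap.mem_ker, map_sub, map_add, hla, hoa, sub_self]
    set δ := min δ₀ (ε / (n + 1)) with hδ
    have hδ0 : 0 < δ := lt_min hδ₀ (by positivity)
    obtain ⟨k, z, hk, hzN, hzs⟩ := exists_family (Near L ρ δ)
    rw [hst δ hδ0 (min_le_left _ _)] at hzs hk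
    have hkn : k ≤ n := by
      rw [hk]
      have := Submodule.finrank_le V
      rwa [finrank_fin_fun] at this
    choose hzL t ht0 hzt using hzN
    obtain ⟨w, hwL, hwV, c, hc, hwc⟩ := split_ceil z hzL (v := l + f - o) (by rw [hzs]; exact hmemV)
    refine ⟨l + w, ⟨L.add_mem hl hwL, ?_⟩, ?_⟩
    · have h1 : l + w + f = o + (∑ i, c i • (z i - t i • ρ)) + (∑ i, c i * t i) • ρ := by
        have h2 : ∑ i, c i • z i = ∑ i, c i • (z i - t i • ρ) + (∑ i, c i * t i) • ρ := by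
          rw [Finset.sum_smul, ← Finset.sum_add_distrib]
          refine Finset.sum_congr rfl fun i _ => ?_
          rw [smul_sub, smul_smul, sub_add_cancel]
        have h3 : l + w + f = o + ((l + f - o) + w) := by abel
        rw [h3, hwc, h2, add_assoc]
      rw [h1]
      refine add_ray hO hadd hsmul ?_ hρ (Finset.sum_nonneg fun i _ => mul_nonneg (hc i).1 (ht0 i))
      apply hballo
      rw [mem_ball_iff_norm, add_sub_cancel_left]
      have h4 : ‖∑ i, c i • (z i - t i • ρ)‖ ≤ ∑ i : Fin k, δ := by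
        refine (norm_sum_le_of_Icc _ hc).trans (Finset.sum_le_sum fun i _ => (hzt i).le)
      rw [Finset.sum_const, Finset.card_univ, Fintype.card_fin, nsmul_eq_mul] at h4
      have h5 : (k : ℝ) * δ ≤ n * (ε / (n + 1)) := by
        refine mul_le_mul (by exact_mod_cast hkn) (min_le_right _ _) hδ0.le (Nat.cast_nonneg _)
      have h6 : (n : ℝ) * (ε / (n + 1)) < ε := by
        rw [mul_div_assoc', div_lt_iff₀ (by positivity)]
        nlinarith
      linarith
    · rw [map_add, hla]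
      have : π w = 0 := by
        rw [← LinearMap.mem_ker, hker, ← hzs]; exact hwV
      rw [this, add_zero]
  choose! g hg hgπ using hlift
  obtain ⟨K, hK0, hK⟩ := bounded_cone F'
  let π' : (Fin n → ℝ) →L[ℝ] (Fin m → ℝ) := LinearMap.toContinuousLinearMap π
  set M : ℝ := K * ‖π'‖ * ∑ a ∈ F', ‖g a‖ with hM
  have hM0 : 0 ≤ M := mul_nonneg (mul_nonneg hK0 (norm_nonneg π'))
    (Finset.sum_nonneg fun a _ => norm_nonneg _)
  refine ⟨Y ∪ F'.image g, ?_, ε₁ / (1 + M), div_pos hε₁ (by linarith), ?_⟩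
  · intro a ha
    rcases Finset.mem_union.1 ha with h | h
    · exact hnear a (hY a h)
    · obtain ⟨b, hb, rfl⟩ := Finset.mem_image.1 h
      exact hg b hb
  · intro x hxL hxO t ht hxt
    have h1 : π x ∈ cone F' := hF'c (π x) ⟨x, hxL, rfl⟩ ⟨x + f, hxO, map_add _ _ _⟩
    obtain ⟨c, hc0, hc, hcK⟩ := hK _ h1
    set v := x - ∑ a ∈ F', c a • g a with hv
    have hvV : v ∈ V := by
      rw [← hker, LinearMap.mem_ker, hv, map_sub, map_sum, hc, sub_eq_zero]
      refine Finset.sum_congr rfl fun a ha => ?_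
      rw [map_smul, hgπ a ha]
    have hπx : ‖π x‖ ≤ ‖π'‖ * ‖x - t • ρ‖ := by
      have h2 : π x = π' (x - t • ρ) := by
        have h3 : π ρ = 0 := by rw [← LinearMap.mem_ker, hker]; exact hρV
        change π x = π (x - t • ρ)
        rw [map_sub, map_smul, h3, smul_zero, sub_zero]
      rw [h2]
      exact π'.le_opNorm _
    have hvt : ‖v - t • ρ‖ ≤ ε₁ * t := by
      have h2 : v - t • ρ = (x - t • ρ) - ∑ a ∈ F', c a • g a := by rw [hv]; abel
      have h3 : ‖∑ a ∈ F', c a • g a‖ ≤ M * ‖x - t • ρ‖ := by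
        calc ‖∑ a ∈ F', c a • g a‖ ≤ ∑ a ∈ F', ‖c a • g a‖ := norm_sum_le _ _
          _ ≤ ∑ a ∈ F', (K * ‖π x‖) * ‖g a‖ := by
              refine Finset.sum_le_sum fun a ha => ?_
              rw [norm_smul, Real.norm_eq_abs, abs_of_nonneg (hc0 a)]
              exact mul_le_mul_of_nonneg_right (hcK a ha) (norm_nonneg _)
          _ = (K * ‖π x‖) * ∑ a ∈ F', ‖g a‖ := by rw [Finset.mul_sum]
          _ ≤ (K * (‖π'‖ * ‖x - t • ρ‖)) * ∑ a ∈ F', ‖g a‖ := by
              refine mul_le_mul_of_nonneg_right (mul_le_mul_of_nonneg_left hπx hK0)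
                (Finset.sum_nonneg fun a _ => norm_nonneg _)
          _ = M * ‖x - t • ρ‖ := by rw [hM]; ring
      rw [h2]
      calc _ ≤ ‖x - t • ρ‖ + ‖∑ a ∈ F', c a • g a‖ := norm_sub_le _ _
        _ ≤ (1 + M) * ‖x - t • ρ‖ := by linarith
        _ ≤ (1 + M) * (ε₁ / (1 + M) * t) := mul_le_mul_of_nonneg_left hxt (by linarith)
        _ = ε₁ * t := by
            have : 1 + M ≠ 0 := by linarith
            field_simp
    have h4 : v ∈ cone Y := hYc v hvV t ht hvt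
    have h5 : x = v + ∑ a ∈ F', c a • g a := by rw [hv]; abel
    rw [h5]
    exact cone_add (cone_mono Finset.subset_union_left h4) (mem_cone_of_sum _ _ _
      (fun a ha => Finset.mem_union_right _ (Finset.mem_image_of_mem g ha)) fun a _ => hc0 a)

/-- **Finite generation.** Let `O` be an open convex cone, `L` a lattice and `f` a lattice point in
`O`. The cone generated by the vectors `x` with `x + f` a lattice point of `O` is generated by
finitely many of them. -/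
theorem tanFG : ∀ n, TanFG n := by
  classical
  intro n
  induction n using Nat.strong_induction_on with
  | _ n ih =>
  intro L hL O hO hadd hsmul f hf hfL
  let K : Set (Fin n → ℝ) := closure O ∩ Metric.sphere 0 1
  have hK : IsCompact K := (isCompact_sphere 0 1).inter_left isClosed_closure
  have hloc : ∀ ρ ∈ K, ∃ F : Finset (Fin n → ℝ), (∀ a ∈ F, a ∈ L ∧ a + f ∈ O) ∧ ∃ ε : ℝ, 0 < ε ∧
      ∀ x ∈ L, x + f ∈ O → ∀ t : ℝ, 0 < t → ‖x - t • ρ‖ ≤ ε * t → x ∈ cone F := by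
    rintro ρ ⟨hρ, hρ1⟩
    refine step (fun m hm => ih m hm) hL hO hadd hsmul hf hfL hρ ?_
    rintro rfl
    simp at hρ1
  choose! F hF ε hε hFc using hloc
  obtain ⟨T, hTK, hcov⟩ := hK.elim_nhds_subcover (fun ρ => Metric.ball ρ (ε ρ))
    (fun ρ hρ => Metric.ball_mem_nhds ρ (hε ρ hρ))
  obtain ⟨δ, hδ, hthick⟩ := hK.exists_thickening_subset_open
    (isOpen_biUnion fun ρ (_ : ρ ∈ T) => Metric.isOpen_ball) hcov
  set R : ℝ := 2 * ‖f‖ / δ + ‖f‖ + 1 with hR
  have hR0 : 0 < R := by positivity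
  have hfin : {x | (x ∈ L ∧ ‖x‖ ≤ R) ∧ x + f ∈ O}.Finite := (hL.fin R).subset fun x hx => hx.1
  refine ⟨T.biUnion F ∪ hfin.toFinset, ?_, ?_⟩
  · intro a ha
    rcases Finset.mem_union.1 ha with h | h
    · obtain ⟨ρ, hρ, h⟩ := Finset.mem_biUnion.1 h
      exact hF ρ (hTK ρ hρ) a h
    · rw [Set.Finite.mem_toFinset] at h
      exact ⟨h.1.1, h.2⟩
  · intro x hxL hxO
    by_cases hxR : ‖x‖ ≤ R
    · exact mem_cone_self (Finset.mem_union_right _ (by
        rw [Set.Finite.mem_toFinset]; exact ⟨⟨hxL, hxR⟩, hxO⟩))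
    · push Not at hxR
      have hx0 : 0 < ‖x‖ := hR0.trans hxR
      have hxf : 0 < ‖x + f‖ := by
        have h1 : ‖x‖ ≤ ‖x + f‖ + ‖f‖ := by
          have := norm_sub_le (x + f) f
          rwa [add_sub_cancel_right] at this
        have h2 : 0 ≤ 2 * ‖f‖ / δ := by positivity
        linarith
      have hu : ‖x + f‖⁻¹ • (x + f) ∈ K := by
        refine ⟨subset_closure (hsmul _ (inv_pos.2 hxf) _ hxO), ?_⟩
        rw [mem_sphere_zero_iff_norm, norm_smul, norm_inv, norm_norm, inv_mul_cancel₀ hxf.ne']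
      have hdist : ‖‖x‖⁻¹ • x - ‖x + f‖⁻¹ • (x + f)‖ < δ := by
        have h1 : ‖x‖⁻¹ • x - ‖x + f‖⁻¹ • (x + f) =
            -(‖x‖⁻¹ • f) + (‖x‖⁻¹ * (‖x + f‖ - ‖x‖)) • (‖x + f‖⁻¹ • (x + f)) := by
          have h0 : (‖x‖⁻¹ * (‖x + f‖ - ‖x‖)) • (‖x + f‖⁻¹ • (x + f)) =
              ‖x‖⁻¹ • (x + f) - ‖x + f‖⁻¹ • (x + f) := by
            rw [smul_smul, ← sub_smul]
            congr 1
            field_simp
          rw [h0, smul_add ‖x‖⁻¹ x f]
          abel
        have h2 : ‖‖x + f‖⁻¹ • (x + f)‖ = 1 := by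
          rw [norm_smul, norm_inv, norm_norm, inv_mul_cancel₀ hxf.ne']
        have h3 : |‖x + f‖ - ‖x‖| ≤ ‖f‖ := by
          have := abs_norm_sub_norm_le (x + f) x
          rwa [add_sub_cancel_left] at this
        have h4 : ‖‖x‖⁻¹ • x - ‖x + f‖⁻¹ • (x + f)‖ ≤ ‖x‖⁻¹ * ‖f‖ + ‖x‖⁻¹ * ‖f‖ := by
          rw [h1]
          refine (norm_add_le _ _).trans (add_le_add ?_ ?_)
          · rw [norm_neg, norm_smul, norm_inv, norm_norm]
          · rw [norm_smul, h2, mul_one, norm_mul, norm_inv, norm_norm, Real.norm_eq_abs]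
            exact mul_le_mul_of_nonneg_left h3 (inv_nonneg.2 hx0.le)
        have h5 : 2 * ‖f‖ / δ < ‖x‖ := by
          have := norm_nonneg f
          linarith
        have h6 : ‖x‖⁻¹ * ‖f‖ + ‖x‖⁻¹ * ‖f‖ = 2 * ‖f‖ / ‖x‖ := by
          field_simp
          ring
        rw [h6] at h4
        refine lt_of_le_of_lt h4 ?_
        rw [div_lt_iff₀ hδ] at h5
        rw [div_lt_iff₀ hx0]
        linarith
      have hmem : ‖x‖⁻¹ • x ∈ Metric.thickening δ K := by
        rw [Metric.mem_thickening_iff]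
        exact ⟨_, hu, by rw [dist_eq_norm]; exact hdist⟩
      have h7 := hthick hmem
      simp only [Set.mem_iUnion] at h7
      obtain ⟨ρ, hρ, h8⟩ := h7
      have h9 : x ∈ cone (F ρ) := by
        refine hFc ρ (hTK ρ hρ) x hxL hxO ‖x‖ hx0 ?_
        rw [mem_ball_iff_norm] at h8
        have h10 : x - ‖x‖ • ρ = ‖x‖ • (‖x‖⁻¹ • x - ρ) := by
          rw [smul_sub, smul_smul, mul_inv_cancel₀ hx0.ne', one_smul]
        rw [h10, norm_smul, norm_norm, mul_comm]
        exact mul_le_mul_of_nonneg_right h8.le hx0.le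
      exact cone_mono (fun a ha => Finset.mem_union_left _ (Finset.mem_biUnion.2 ⟨ρ, hρ, ha⟩)) h9

end Pool.Agent.Helper63.Mc
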