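import Pool.Agent.Helper63.Mc.Conv
import Pool.Agent.Helper63.Mc.Tan

/-!
# Finitely many orbits of minimal points give a covering of the dual cone
-/

set_option autoImplicit false

namespace Pool.Agent.Helper63.Mc

open Pool.Agent.Y167 Pool.Agent.N165.KM Matrix Finset Topology

variable {n : ℕ} {C : Set (Fin n → ℝ)} {Γ : Subgroup ((Fin n → ℝ) ≃ₗ[ℝ] (Fin n → ℝ))}

theorem single_int (i : Fin n) : (Pi.single i 1 : Fin n → ℝ) ∈ IntL n := by
  intro j
  by_cases hij : j = i
  · subst hij; exact ⟨1, by simp⟩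
  · exact ⟨0, by simp [hij]⟩

theorem dot_int {x y : Fin n → ℝ} (hx : x ∈ IntL n) (hy : y ∈ IntL n) : ∃ m : ℤ, x ⬝ᵥ y = m := by
  choose a ha using (mem_IntL.1 hx)
  choose b hb using (mem_IntL.1 hy)
  refine ⟨∑ i, a i * b i, ?_⟩
  rw [dotProduct]
  push_cast
  exact Finset.sum_congr rfl fun i _ => by rw [ha, hb]

theorem isLat_IntL : IsLat (IntL n) := by
  constructor
  · rw [eq_top_iff]
    rintro x -
    rw [← Finset.univ_sum_single x]
    refine Submodule.sum_mem _ fun i _ => ?_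
    have : (Pi.single i (x i) : Fin n → ℝ) = x i • Pi.single i 1 := by
      rw [← Pi.single_smul, smul_eq_mul, mul_one]
    rw [this]
    exact Submodule.smul_mem _ _ (Submodule.subset_span (single_int i))
  · intro R
    exact finite_bdd R

/-- The whole space is a finitely generated cone. -/
theorem exists_whole : ∃ S : Finset (Fin n → ℝ), (∀ a ∈ S, a ∈ IntL n) ∧ ∀ x, x ∈ cone S := by
  classical
  refine ⟨(Finset.univ.image fun i : Fin n => (Pi.single i 1 : Fin n → ℝ)) ∪
    (Finset.univ.image fun i : Fin n => -(Pi.single i 1 : Fin n → ℝ)), ?_, ?_⟩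
  · intro a ha
    rcases Finset.mem_union.1 ha with h | h
    · obtain ⟨i, -, rfl⟩ := Finset.mem_image.1 h
      exact single_int i
    · obtain ⟨i, -, rfl⟩ := Finset.mem_image.1 h
      exact (IntL n).neg_mem (single_int i)
  · intro x
    rw [← Finset.univ_sum_single x]
    refine cone_sum _ _ fun i _ => ?_
    have : (Pi.single i (x i) : Fin n → ℝ) = x i • Pi.single i 1 := by
      rw [← Pi.single_smul, smul_eq_mul, mul_one]
    rw [this]
    rcases le_total 0 (x i) with h | h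
    · exact cone_smul (mem_cone_self (Finset.mem_union_left _
        (Finset.mem_image_of_mem _ (Finset.mem_univ i)))) h
    · have h2 : x i • (Pi.single i 1 : Fin n → ℝ) = (-x i) • -(Pi.single i 1 : Fin n → ℝ) := by
        rw [smul_neg, neg_smul, neg_neg]
      rw [h2]
      exact cone_smul (mem_cone_self (Finset.mem_union_right _
        (Finset.mem_image_of_mem _ (Finset.mem_univ i)))) (by linarith)

/-- The dual of a cone generated by finitely many integral vectors is generated by finitely many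
integral vectors. -/
theorem exists_dual_gen (Φ : Finset (Fin n → ℝ)) (hΦ : ∀ a ∈ Φ, a ∈ IntL n) :
    ∃ S : Finset (Fin n → ℝ), (∀ a ∈ S, a ∈ IntL n) ∧
      ∀ c, c ∈ cone S ↔ ∀ a ∈ Φ, 0 ≤ a ⬝ᵥ c := by
  classical
  induction Φ using Finset.induction_on with
  | empty =>
    obtain ⟨S, hS, hx⟩ := exists_whole (n := n)
    exact ⟨S, hS, fun c => by simp [hx c]⟩
  | insert φ Φ _ ih =>
    obtain ⟨S1, hS1, h1⟩ := ih fun ψ hψ => hΦ ψ (Finset.mem_insert_of_mem hψ)
    let l : (Fin n → ℝ) →ₗ[ℝ] ℝ :=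
      { toFun := fun c => φ ⬝ᵥ c
        map_add' := fun a b => dotProduct_add _ _ _
        map_smul' := fun t a => by rw [dotProduct_smul]; rfl }
    have hφ := hΦ φ (Finset.mem_insert_self _ _)
    obtain ⟨S2, hS2, h2⟩ := cone_cut S1 l (fun a => a ∈ IntL n) hS1 (by
      intro a ha b hb _ _
      obtain ⟨p, hp⟩ := dot_int hφ (hS1 a ha)
      obtain ⟨q, hq⟩ := dot_int hφ (hS1 b hb)
      have e1 : l a = p := hp
      have e2 : l b = q := hq
      rw [e1, e2]
      refine (IntL n).sub_mem ?_ ?_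
      · rw [Int.cast_smul_eq_zsmul]; exact (IntL n).zsmul_mem (hS1 b hb) p
      · rw [Int.cast_smul_eq_zsmul]; exact (IntL n).zsmul_mem (hS1 a ha) q)
    refine ⟨S2, hS2, fun c => ?_⟩
    rw [h2, h1, Finset.forall_mem_insert]
    exact and_comm

theorem inv_apply_self' (g : (Fin n → ℝ) ≃ₗ[ℝ] (Fin n → ℝ)) (x : Fin n → ℝ) : g (g⁻¹ x) = x := by
  have : (g * g⁻¹) x = x := by rw [mul_inv_cancel]; rfl
  exact this

/-- A vector which is bounded below on the integral interior points is in the dual cone. -/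
theorem mem_dual_of_bdd (h : Proper C) {c : Fin n → ℝ} {b : ℝ}
    (hb : ∀ y ∈ interior C, y ∈ IntL n → b ≤ y ⬝ᵥ c) : c ∈ Mc.dual C := by
  intro x hx
  by_contra hneg
  push Not at hneg
  let C' : Set (Fin n → ℝ) := {x | x ∈ C ∧ x ⬝ᵥ c ≤ 0}
  have hc0 : c ≠ 0 := by
    rintro rfl
    simp at hneg
  have hcont : Continuous fun x : Fin n → ℝ => x ⬝ᵥ c := by
    simp only [dotProduct]
    fun_prop
  have hC' : (interior C').Nonempty := by
    obtain ⟨z, hz⟩ := h.int
    have hlim : Filter.Tendsto (fun t : ℝ => (x + t • z) ⬝ᵥ c) (𝓝[>] 0) (𝓝 ((x + (0 : ℝ) • z) ⬝ᵥ c)) := by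
      have : Continuous fun t : ℝ => (x + t • z) ⬝ᵥ c := hcont.comp (by fun_prop)
      exact (this.tendsto 0).mono_left nhdsWithin_le_nhds
    rw [zero_smul, add_zero] at hlim
    have h2 : ∀ᶠ t : ℝ in 𝓝[>] 0, (x + t • z) ⬝ᵥ c < 0 := hlim (Iio_mem_nhds hneg)
    obtain ⟨t, ht, ht0⟩ := (h2.and self_mem_nhdsWithin).exists
    have h3 : x + t • z ∈ interior C := by
      rw [add_comm]
      exact interior_add_mem h.add (interior_smul_mem h.smul ht0 hz) hx
    refine ⟨x + t • z, mem_interior.2 ⟨interior C ∩ {x | x ⬝ᵥ c < 0}, ?_,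
      isOpen_interior.inter (isOpen_lt hcont continuous_const), h3, ht⟩⟩
    rintro y ⟨hy1, hy2⟩
    exact ⟨interior_subset hy1, le_of_lt hy2⟩
  obtain ⟨y, hy, hyL⟩ := exists_int_interior (C := C') (by
    rintro t ht x ⟨hx1, hx2⟩
    refine ⟨h.smul t ht x hx1, ?_⟩
    rw [smul_dotProduct, smul_eq_mul]
    exact mul_nonpos_of_nonneg_of_nonpos ht hx2) hC'
  have hyC : y ∈ interior C := interior_mono (fun z hz => hz.1) hy
  have hyneg : y ⬝ᵥ c < 0 := by
    obtain ⟨t, ht, hyt⟩ := interior_sub hy (-c)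
    have h1 := (interior_subset hyt).2
    rw [smul_neg, sub_neg_eq_add, add_dotProduct, smul_dotProduct, smul_eq_mul] at h1
    have h2 : 0 < c ⬝ᵥ c := by
      rcases (Finset.sum_nonneg fun i _ => mul_self_nonneg (c i) : 0 ≤ c ⬝ᵥ c).eq_or_lt with h0 | h0
      · exact absurd (dotProduct_self_eq_zero.1 h0.symm) hc0
      · exact h0
    have h3 := mul_pos ht h2
    linarith
  obtain ⟨N, hN⟩ := exists_nat_gt (b / (y ⬝ᵥ c))
  have h1 := hb (((N + 1 : ℕ) : ℝ) • y) (interior_smul_mem h.smul (by positivity) hyC) (by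
    rw [Nat.cast_smul_eq_nsmul]; exact (IntL n).nsmul_mem hyL _)
  rw [smul_dotProduct, smul_eq_mul] at h1
  rw [div_lt_iff_of_neg hyneg] at hN
  push_cast at h1
  nlinarith

/-- Finitely many orbits of minimal points give a covering of the interior of the dual cone. -/
theorem cov_dual_of_minFin (h : Proper C) (ha : Acts C Γ) (hm : MinFin C Γ) :
    Cov (Mc.dual C) (Γ.map contraHom) := by
  classical
  obtain ⟨F, hF⟩ := hm
  -- the cones
  have hS : ∀ f, f ∈ interior C → f ∈ IntL n → ∃ S : Finset (Fin n → ℝ),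
      (∀ a ∈ S, a ∈ IntL n ∧ a ∈ Mc.dual C) ∧
        ∀ c, (∀ y ∈ interior C, y ∈ IntL n → f ⬝ᵥ c ≤ y ⬝ᵥ c) → c ∈ cone S := by
    intro f hf hfL
    obtain ⟨G, hG, hGc⟩ := tanFG n (IntL n) isLat_IntL (interior C) isOpen_interior
      (fun x hx y hy => interior_add_mem h.add hx (interior_subset hy))
      (fun t ht x hx => interior_smul_mem h.smul ht hx) f hf hfL
    obtain ⟨S, hSL, hSc⟩ := exists_dual_gen G fun a ha => (hG a ha).1
    refine ⟨S, fun a haS => ⟨hSL a haS, ?_⟩, fun c hc => ?_⟩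
    · apply mem_dual_of_bdd h (b := f ⬝ᵥ a)
      intro y hy hyL
      have h1 : y - f ∈ cone G := hGc (y - f) ((IntL n).sub_mem hyL hfL) (by simpa using hy)
      have h2 : 0 ≤ (y - f) ⬝ᵥ a := by
        have h3 := (hSc a).1 (mem_cone_self haS)
        obtain ⟨w, hw, hwy⟩ := h1
        rw [hwy, sum_dotProduct]
        refine Finset.sum_nonneg fun b hb => ?_
        rw [smul_dotProduct, smul_eq_mul]
        exact mul_nonneg (hw b) (h3 b hb)
      rw [sub_dotProduct] at h2
      linarith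
    · rw [hSc]
      intro a haG
      obtain ⟨haL, hafC⟩ := hG a haG
      have h1 := hc (a + f) hafC ((IntL n).add_mem haL hfL)
      rw [add_dotProduct] at h1
      linarith
  choose! S hSm hSc using hS
  let F₁ := F.filter fun f => f ∈ interior C ∧ f ∈ IntL n
  refine ⟨F₁.biUnion S, ?_, ?_⟩
  · intro a haS
    obtain ⟨f, hf, haf⟩ := Finset.mem_biUnion.1 haS
    obtain ⟨-, hf1, hf2⟩ := Finset.mem_filter.1 hf
    exact hSm f hf1 hf2 a haf
  · intro c hc
    -- a lower bound for `c`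
    obtain ⟨ξ, -, hξ⟩ := exists_int_functional h.closed h.add h.smul h.pointed
    let c₁ : Fin n → ℝ := fun i => ξ (Pi.single i 1)
    have hc₁ : ∀ x, x ⬝ᵥ c₁ = ξ x := by
      intro x
      conv_rhs => rw [← Finset.univ_sum_single x]
      rw [map_sum, dotProduct]
      refine Finset.sum_congr rfl fun i _ => ?_
      have : (Pi.single i (x i) : Fin n → ℝ) = x i • Pi.single i 1 := by
        rw [← Pi.single_smul, smul_eq_mul, mul_one]
      rw [this, map_smul, smul_eq_mul]
    obtain ⟨t, ht, hct⟩ := interior_sub hc c₁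
    have hlow : ∀ x ∈ C, t * ‖x‖ ≤ x ⬝ᵥ c := by
      intro x hx
      have h1 := (interior_subset hct) x hx
      rw [dotProduct_sub, dotProduct_smul, smul_eq_mul, hc₁] at h1
      have h2 := mul_le_mul_of_nonneg_left (hξ x hx) ht.le
      linarith
    -- a minimiser
    obtain ⟨x₁, hx₁, hx₁L⟩ := exists_int_interior h.smul h.int
    have hfin : {x | (x ∈ interior C ∧ x ∈ IntL n) ∧ x ⬝ᵥ c ≤ x₁ ⬝ᵥ c}.Finite := by
      refine (finite_bdd (x₁ ⬝ᵥ c / t)).subset ?_
      rintro x ⟨⟨hx, hxL⟩, hxc⟩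
      refine ⟨hxL, ?_⟩
      rw [le_div_iff₀ ht]
      have := hlow x (interior_subset hx)
      linarith
    obtain ⟨x₀, ⟨⟨hx₀, hx₀L⟩, hx₀c⟩, hmin⟩ := Set.exists_min_image _ (fun x => x ⬝ᵥ c) hfin
      ⟨x₁, ⟨hx₁, hx₁L⟩, le_rfl⟩
    have hmin' : ∀ y ∈ interior C, y ∈ IntL n → x₀ ⬝ᵥ c ≤ y ⬝ᵥ c := by
      intro y hy hyL
      rcases le_total (y ⬝ᵥ c) (x₁ ⬝ᵥ c) with h1 | h1
      · exact hmin y ⟨⟨hy, hyL⟩, h1⟩
      · exact hx₀c.trans h1
    have hM : IsMin C x₀ := by
      refine ⟨hx₀, hx₀L, fun y z hy hyL hz _ hyz => ?_⟩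
      have h1 := hmin' y hy hyL
      rw [hyz, add_dotProduct] at h1
      have h2 := hlow z hz
      have h3 : ‖z‖ ≤ 0 := by
        by_contra hcon
        push Not at hcon
        have := mul_pos ht hcon
        linarith
      exact norm_le_zero_iff.1 h3
    obtain ⟨g, hg, hgF⟩ := hF x₀ hM
    have hgi : g x₀ ∈ interior C := ha.interior hg hx₀
    have hgL : g x₀ ∈ IntL n := ha.int g hg _ hx₀L
    refine ⟨contraHom g, ⟨g, hg, rfl⟩, ?_⟩
    have h1 : contra g c ∈ cone (S (g x₀)) := by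
      refine hSc (g x₀) hgi hgL _ fun y hy hyL => ?_
      rw [contra_dot]
      have h2 : y ⬝ᵥ contra g c = (g⁻¹ y) ⬝ᵥ c := by
        conv_lhs => rw [← inv_apply_self' g y]
        rw [contra_dot]
      rw [h2]
      exact hmin' _ (ha.interior (Γ.inv_mem hg) hy) (ha.int _ (Γ.inv_mem hg) _ hyL)
    exact cone_mono (Finset.subset_biUnion_of_mem S
      (Finset.mem_filter.2 ⟨hgF, hgi, hgL⟩)) h1

/-- **The equivalence for cones.** -/
theorem cov_iff_minFin (h : Proper C) (ha : Acts C Γ) : Cov C Γ ↔ MinFin C Γ := by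
  refine ⟨minFin_of_cov h ha, fun hm => ?_⟩
  have h1 := cov_dual_of_minFin h ha hm
  have h2 := cov_dual_of_minFin h.dual ha.dual (minFin_of_cov h.dual ha.dual h1)
  rwa [h.dual_dual, map_map] at h2

theorem minFin_dual_iff (h : Proper C) (ha : Acts C Γ) :
    MinFin (Mc.dual C) (Γ.map contraHom) ↔ MinFin C Γ := by
  rw [← cov_iff_minFin h ha]
  constructor
  · intro hm
    have h2 := cov_dual_of_minFin h.dual ha.dual hm
    rwa [h.dual_dual, map_map] at h2
  · intro hc
    exact minFin_of_cov h.dual ha.dual (cov_dual_of_minFin h ha (minFin_of_cov h ha hc))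

end Pool.Agent.Helper63.Mc
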