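import Pool.Graph.R_seed8.Y167.Cone

/-!
# Bounded coefficients
-/

set_option autoImplicit false

namespace Pool.Agent.Helper63.Mc

open Finset Filter Topology Pool.Agent.Y167

section

variable {E : Type*} [NormedAddCommGroup E] [NormedSpace ℝ E]

/-- The elements of a finitely generated cone have representations with bounded coefficients. -/
theorem bounded_cone (F : Finset E) : ∃ K : ℝ, 0 ≤ K ∧ ∀ z ∈ cone F, ∃ c : E → ℝ, (∀ a, 0 ≤ c a) ∧
    z = ∑ a ∈ F, c a • a ∧ ∀ a ∈ F, c a ≤ K * ‖z‖ := by
  classical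
  induction F using Finset.strongInduction with
  | H F ih =>
    by_cases hrel : ∃ d : E → ℝ, (∀ a, 0 ≤ d a) ∧ (∃ a ∈ F, 0 < d a) ∧ ∑ a ∈ F, d a • a = 0
    · obtain ⟨d, hd0, ⟨a₁, ha₁, hda₁⟩, hd⟩ := hrel
      have key : ∀ b ∈ F, ∃ K : ℝ, 0 ≤ K ∧ ∀ z ∈ cone (F.erase b), ∃ c : E → ℝ, (∀ a, 0 ≤ c a) ∧
          z = ∑ a ∈ F.erase b, c a • a ∧ ∀ a ∈ F.erase b, c a ≤ K * ‖z‖ :=
        fun b hb => ih _ (Finset.erase_ssubset hb)
      choose! K hK0 hK using key
      have hKs : 0 ≤ ∑ b ∈ F, K b := Finset.sum_nonneg hK0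
      refine ⟨∑ b ∈ F, K b, hKs, ?_⟩
      rintro z ⟨c, hc, rfl⟩
      obtain ⟨b, hb, hmin⟩ := Finset.exists_min_image (F.filter fun a => 0 < d a)
        (fun a => c a / d a) ⟨a₁, Finset.mem_filter.2 ⟨ha₁, hda₁⟩⟩
      obtain ⟨hbF, hbd⟩ := Finset.mem_filter.1 hb
      set lam : ℝ := c b / d b with hlam
      have hlam0 : 0 ≤ lam := div_nonneg (hc b) hbd.le
      have hnn : ∀ a ∈ F, 0 ≤ c a - lam * d a := by
        intro a ha
        rcases (hd0 a).eq_or_lt with h0 | h0
        · rw [← h0]; simpa using hc a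
        · have h1 := hmin a (Finset.mem_filter.2 ⟨ha, h0⟩)
          have h2 : lam * d a ≤ c a := by
            rw [le_div_iff₀ h0] at h1
            exact h1
          linarith
      have hzb : c b - lam * d b = 0 := by
        rw [hlam, div_mul_cancel₀ _ hbd.ne']
        ring
      have hz : ∑ a ∈ F, c a • a = ∑ a ∈ F.erase b, (c a - lam * d a) • a := by
        have h1 : ∑ a ∈ F, c a • a = ∑ a ∈ F, (c a - lam * d a) • a := by
          have h2 : ∑ a ∈ F, (c a - lam * d a) • a = ∑ a ∈ F, c a • a - lam • ∑ a ∈ F, d a • a := by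
            rw [Finset.smul_sum, ← Finset.sum_sub_distrib]
            refine Finset.sum_congr rfl fun a _ => ?_
            rw [sub_smul, mul_smul]
          rw [h2, hd, smul_zero, sub_zero]
        rw [h1, ← Finset.sum_erase_add _ _ hbF, hzb, zero_smul, add_zero]
      have hmem : ∑ a ∈ F, c a • a ∈ cone (F.erase b) := by
        rw [hz]
        exact mem_cone_of_sum _ _ _ (fun a ha => ha) (fun a ha => hnn a (Finset.mem_of_mem_erase ha))
      obtain ⟨e, he0, he, heK⟩ := hK b hbF _ hmem
      refine ⟨fun a => if a = b then 0 else e a, ?_, ?_, ?_⟩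
      · intro a
        show (0 : ℝ) ≤ if a = b then 0 else e a
        split_ifs
        · exact le_refl _
        · exact he0 a
      · rw [he, ← Finset.sum_erase_add F _ hbF]
        simp only [if_true, zero_smul, add_zero]
        refine Finset.sum_congr rfl fun a ha => ?_
        rw [if_neg (Finset.ne_of_mem_erase ha)]
      · intro a ha
        show (if a = b then 0 else e a) ≤ _
        split_ifs with hab
        · exact mul_nonneg hKs (norm_nonneg _)
        · refine (heK a (Finset.mem_erase.2 ⟨hab, ha⟩)).trans ?_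
          refine mul_le_mul_of_nonneg_right ?_ (norm_nonneg _)
          exact Finset.single_le_sum (f := K) hK0 hbF
    · push Not at hrel
      rcases F.eq_empty_or_nonempty with rfl | hne
      · refine ⟨0, le_refl _, ?_⟩
        rintro z ⟨c, hc, rfl⟩
        exact ⟨c, hc, rfl, fun a ha => by simp at ha⟩
      · have : Nonempty F := ⟨⟨hne.choose, hne.choose_spec⟩⟩
        have hcomp : IsCompact (stdSimplex ℝ F) := isCompact_stdSimplex ℝ F
        have hcont : Continuous fun d : F → ℝ => ‖∑ a : F, d a • (a : E)‖ := by fun_prop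
        have hnes : (stdSimplex ℝ F).Nonempty := by
          obtain ⟨a⟩ := (inferInstance : Nonempty F)
          exact ⟨_, single_mem_stdSimplex ℝ a⟩
        obtain ⟨d, hd, hmin⟩ := hcomp.exists_isMinOn hnes hcont.continuousOn
        have hpos : 0 < ‖∑ a : F, d a • (a : E)‖ := by
          rw [norm_pos_iff]
          intro h0
          let d' : E → ℝ := fun a => if ha : a ∈ F then d ⟨a, ha⟩ else 0
          have h1 : ∑ a ∈ F, d' a • a = 0 := by
            rw [← Finset.sum_coe_sort F, ← h0]
            refine Finset.sum_congr rfl fun a _ => ?_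
            simp only [d', dif_pos a.2]
          have h2 : ∀ a, 0 ≤ d' a := by
            intro a
            simp only [d']
            split_ifs with ha
            · exact hd.1 _
            · exact le_refl _
          have h3 : ∃ a ∈ F, 0 < d' a := by
            by_contra hcon
            push Not at hcon
            have h4 : ∑ a : F, d a = 0 := by
              refine Finset.sum_eq_zero fun a _ => le_antisymm ?_ (hd.1 a)
              have := hcon a a.2
              simpa only [d', dif_pos a.2] using this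
            rw [hd.2] at h4
            exact one_ne_zero h4
          exact hrel d' h2 h3 h1
        set κ : ℝ := ‖∑ a : F, d a • (a : E)‖ with hκ
        refine ⟨κ⁻¹, inv_nonneg.2 hpos.le, ?_⟩
        rintro z ⟨c, hc, rfl⟩
        refine ⟨c, hc, rfl, ?_⟩
        set s : ℝ := ∑ a ∈ F, c a with hs
        have hs0 : 0 ≤ s := Finset.sum_nonneg fun a _ => hc a
        have hle : κ * s ≤ ‖∑ a ∈ F, c a • a‖ := by
          rcases hs0.eq_or_lt with h0 | h0
          · rw [← h0, mul_zero]; exact norm_nonneg _
          · have h1 : (fun a : F => s⁻¹ * c a) ∈ stdSimplex ℝ F := by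
              refine ⟨fun a => mul_nonneg (inv_nonneg.2 hs0) (hc _), ?_⟩
              rw [← Finset.mul_sum, Finset.sum_coe_sort F (fun a => c a), ← hs, inv_mul_cancel₀ h0.ne']
            have h2 : κ ≤ ‖∑ a : F, (s⁻¹ * c a) • (a : E)‖ := hmin h1
            have h3 : ∑ a : F, (s⁻¹ * c a) • (a : E) = s⁻¹ • ∑ a ∈ F, c a • a := by
              rw [Finset.smul_sum, ← Finset.sum_coe_sort F (fun a => s⁻¹ • c a • a)]
              refine Finset.sum_congr rfl fun a _ => by rw [mul_smul]
            rw [h3, norm_smul, norm_inv, Real.norm_eq_abs, abs_of_pos h0] at h2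
            calc κ * s ≤ (s⁻¹ * ‖∑ a ∈ F, c a • a‖) * s := mul_le_mul_of_nonneg_right h2 hs0
              _ = ‖∑ a ∈ F, c a • a‖ := by field_simp
        intro a ha
        have h1 : c a ≤ s := Finset.single_le_sum (f := c) (fun b _ => hc b) ha
        rw [inv_mul_eq_div, le_div_iff₀ hpos]
        calc c a * κ ≤ s * κ := mul_le_mul_of_nonneg_right h1 hpos.le
          _ = κ * s := mul_comm _ _
          _ ≤ _ := hle

/-- The elements of the span of finitely many vectors have representations with bounded
coefficients. -/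
theorem bounded_span {k : ℕ} (y : Fin k → E) : ∃ K : ℝ, 0 ≤ K ∧
    ∀ v ∈ Submodule.span ℝ (Set.range y), ∃ a : Fin k → ℝ, v = ∑ i, a i • y i ∧
      ∀ i, |a i| ≤ K * ‖v‖ := by
  classical
  let T : (Fin k → ℝ) →ₗ[ℝ] E := Fintype.linearCombination ℝ y
  have hT : ∀ a, T a = ∑ i, a i • y i := fun a => by
    simp only [T, Fintype.linearCombination_apply]
  have hrange : LinearMap.range T = Submodule.span ℝ (Set.range y) :=
    Fintype.range_linearCombination ℝ y
  obtain ⟨g, hg⟩ := LinearMap.exists_rightInverse_of_surjective T.rangeRestrict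
    (LinearMap.range_rangeRestrict T)
  have : FiniteDimensional ℝ (LinearMap.range T) := inferInstance
  let g' : (LinearMap.range T) →L[ℝ] (Fin k → ℝ) := LinearMap.toContinuousLinearMap g
  refine ⟨‖g'‖, g'.opNorm_nonneg, fun v hv => ?_⟩
  rw [← hrange] at hv
  refine ⟨g' ⟨v, hv⟩, ?_, fun i => ?_⟩
  · have h1 := LinearMap.congr_fun hg ⟨v, hv⟩
    have h2 := congrArg Subtype.val h1
    have h3 : T (g ⟨v, hv⟩) = v := h2
    rw [← hT]
    exact h3.symm
  · have h1 := g'.le_opNorm ⟨v, hv⟩
    have h2 := norm_le_pi_norm (g' ⟨v, hv⟩) i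
    rw [Real.norm_eq_abs] at h2
    exact h2.trans h1

end

end Pool.Agent.Helper63.Mc
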