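import Pool.Agent.Helper63.Mc.DualCov
import Pool.Agent.Helper63.Mc.Dom2

/-!
# Fundamental domains and minimal points
-/

set_option autoImplicit false

namespace Pool.Agent.Helper63.Mc

open Pool.Agent.Y167 Pool.Agent.N165.KM Matrix Finset Topology

variable {n : ℕ} {C : Set (Fin n → ℝ)}

/-- Interior points of a cone are combinations of integral points of the cone. -/
theorem interior_subset_plus (h : Proper C) {x : Fin n → ℝ} (hx : x ∈ interior C) :
    x ∈ Cp (IntL n) C := by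
  classical
  rcases Nat.eq_zero_or_pos n with rfl | hn
  · refine ⟨∅, by simp, ?_⟩
    have : x = 0 := Subsingleton.elim _ _
    rw [this]
    exact zero_mem_cone _
  obtain ⟨r, hr, hball⟩ := Metric.isOpen_iff.1 isOpen_interior x hx
  obtain ⟨M, hM⟩ := exists_nat_gt ((n + 1) / r)
  have hM0 : (0 : ℝ) < M := lt_trans (by positivity) hM
  rw [div_lt_iff₀ hr] at hM
  have hbig : ∀ z, ‖z - (M : ℝ) • x‖ ≤ n + 1 → z ∈ C := by
    intro z hz
    have h1 : (M : ℝ)⁻¹ • z ∈ interior C := by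
      apply hball
      rw [mem_ball_iff_norm]
      have h2 : (M : ℝ)⁻¹ • z - x = (M : ℝ)⁻¹ • (z - (M : ℝ) • x) := by
        rw [smul_sub, smul_smul, inv_mul_cancel₀ hM0.ne', one_smul]
      rw [h2, norm_smul, norm_inv, Real.norm_eq_abs, abs_of_pos hM0, inv_mul_lt_iff₀ hM0]
      linarith
    have h3 := h.smul M hM0.le _ (interior_subset h1)
    rwa [smul_smul, mul_inv_cancel₀ hM0.ne', one_smul] at h3
  let p : Fin n → ℝ := fun i => ⌊(M : ℝ) * x i⌋
  have hpL : p ∈ IntL n := fun i => ⟨_, rfl⟩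
  let θ : Fin n → ℝ := fun i => Int.fract ((M : ℝ) * x i)
  have hθ : (M : ℝ) • x = p + ∑ i, θ i • (Pi.single i 1 : Fin n → ℝ) := by
    ext j
    rw [Pi.smul_apply, Pi.add_apply, Finset.sum_apply]
    have h1 : ∑ i, (θ i • (Pi.single i 1 : Fin n → ℝ)) j = θ j := by
      rw [Finset.sum_eq_single j]
      · simp
      · intro b _ hb
        simp [hb.symm]
      · simp
    rw [h1, smul_eq_mul]
    exact (Int.floor_add_fract _).symm
  have hpx : ‖p - (M : ℝ) • x‖ ≤ 1 := by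
    rw [pi_norm_le_iff_of_nonneg zero_le_one]
    intro i
    have h1 : (p - (M : ℝ) • x) i = -θ i := by
      simp only [Pi.sub_apply, Pi.smul_apply, smul_eq_mul, p, θ, Int.fract]
      ring
    rw [h1, norm_neg, Real.norm_eq_abs, abs_of_nonneg (Int.fract_nonneg _)]
    exact (Int.fract_lt_one _).le
  have hn1 : (1 : ℝ) ≤ n := by exact_mod_cast hn
  let q : Fin n → (Fin n → ℝ) := fun i => p + (n : ℝ) • (Pi.single i 1 : Fin n → ℝ)
  have hqC : ∀ i, q i ∈ C := by
    intro i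
    apply hbig
    have h1 : q i - (M : ℝ) • x = (p - (M : ℝ) • x) + (n : ℝ) • (Pi.single i 1 : Fin n → ℝ) := by
      simp only [q]; abel
    rw [h1]
    refine (norm_add_le _ _).trans ?_
    have h2 : ‖(n : ℝ) • (Pi.single i 1 : Fin n → ℝ)‖ ≤ n := by
      rw [norm_smul, Real.norm_eq_abs, abs_of_nonneg (Nat.cast_nonneg n)]
      have h3 : ‖(Pi.single i 1 : Fin n → ℝ)‖ ≤ 1 := by
        rw [pi_norm_le_iff_of_nonneg zero_le_one]
        intro j
        by_cases hij : j = i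
        · subst hij; simp
        · simp [hij]
      calc (n : ℝ) * ‖(Pi.single i 1 : Fin n → ℝ)‖ ≤ n * 1 :=
            mul_le_mul_of_nonneg_left h3 (Nat.cast_nonneg n)
        _ = n := mul_one _
    linarith
  have hpC : p ∈ C := hbig p (by linarith)
  refine ⟨insert p (Finset.univ.image q), ?_, ?_⟩
  · intro a ha
    rcases Finset.mem_insert.1 ha with rfl | ha
    · exact ⟨hpL, hpC⟩
    · obtain ⟨i, -, rfl⟩ := Finset.mem_image.1 ha
      refine ⟨(IntL n).add_mem hpL ?_, hqC i⟩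
      rw [Nat.cast_smul_eq_nsmul]
      exact (IntL n).nsmul_mem (single_int i) _
  · have hnr : (n : ℝ) ≠ 0 := by positivity
    have h1 : (M : ℝ) • x = ∑ i, (((1 / (n : ℝ)) * (1 - θ i)) • p + ((1 / (n : ℝ)) * θ i) • q i) := by
      have h2 : ∀ i : Fin n, ((1 / (n : ℝ)) * (1 - θ i)) • p + ((1 / (n : ℝ)) * θ i) • q i =
          (1 / (n : ℝ)) • p + θ i • (Pi.single i 1 : Fin n → ℝ) := by
        intro i
        simp only [q]
        rw [smul_add, ← add_assoc, ← add_smul, smul_smul]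
        congr 2
        · ring
        · field_simp
      rw [Finset.sum_congr rfl fun i _ => h2 i, Finset.sum_add_distrib, Finset.sum_const,
        Finset.card_univ, Fintype.card_fin, ← Nat.cast_smul_eq_nsmul ℝ, smul_smul,
        mul_one_div_cancel hnr, one_smul]
      exact hθ
    have h3 : (M : ℝ) • x ∈ cone (insert p (Finset.univ.image q)) := by
      rw [h1]
      refine cone_sum _ _ fun i _ => cone_add (cone_smul (mem_cone_self (Finset.mem_insert_self _ _))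
        ?_) (cone_smul (mem_cone_self (Finset.mem_insert_of_mem (Finset.mem_image_of_mem q
          (Finset.mem_univ i)))) ?_)
      · exact mul_nonneg (by positivity) (by
          have := (Int.fract_lt_one ((M : ℝ) * x i)).le
          simp only [θ]; linarith)
      · exact mul_nonneg (by positivity) (Int.fract_nonneg _)
    have h4 := cone_smul h3 (t := (M : ℝ)⁻¹) (by positivity)
    rwa [smul_smul, inv_mul_cancel₀ hM0.ne', one_smul] at h4

theorem plus_subset (h : Proper C) {x : Fin n → ℝ} (hx : x ∈ Cp (IntL n) C) : x ∈ C := by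
  obtain ⟨S, hS, hx⟩ := hx
  exact cone_ind (p := fun x => x ∈ C) h.zero_mem (fun x y hx hy => h.add x hx y hy)
    (fun t x ht hx => h.smul t ht x hx) (fun a ha => (hS a ha).2) hx

theorem plus_add {x y : Fin n → ℝ} (hx : x ∈ Cp (IntL n) C) (hy : y ∈ Cp (IntL n) C) :
    x + y ∈ Cp (IntL n) C := by
  classical
  obtain ⟨S, hS, hx⟩ := hx
  obtain ⟨T, hT, hy⟩ := hy
  refine ⟨S ∪ T, fun a ha => ?_, cone_add (cone_mono Finset.subset_union_left hx)
    (cone_mono Finset.subset_union_right hy)⟩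
  rcases Finset.mem_union.1 ha with h | h
  · exact hS a h
  · exact hT a h

theorem plus_smul {x : Fin n → ℝ} (hx : x ∈ Cp (IntL n) C) {t : ℝ} (ht : 0 ≤ t) :
    t • x ∈ Cp (IntL n) C := by
  obtain ⟨S, hS, hx⟩ := hx
  exact ⟨S, hS, cone_smul hx ht⟩

theorem plus_self {x : Fin n → ℝ} (hx : x ∈ C) (hxL : x ∈ IntL n) : x ∈ Cp (IntL n) C :=
  ⟨{x}, by simpa using ⟨hxL, hx⟩, mem_cone_self (Finset.mem_singleton_self x)⟩

theorem sandwich_plus (h : Proper C) : Sandwich C (Cp (IntL n) C) where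
  closed := h.closed
  add := h.add
  smul := h.smul
  pointed := h.pointed
  int := h.int
  Nsub := fun _ hx => plus_subset h hx
  Nint := fun _ hx => interior_subset_plus h hx
  Nadd := fun _ hx _ hy => plus_add hx hy
  Nsmul := fun _ ht _ hx => plus_smul hx ht

section Pull

variable {A : Type} [Group A] {pull : A → ((Fin n → ℝ) ≃ₗ[ℝ] (Fin n → ℝ))}

theorem acts_range (hmul : ∀ f g, pull (f * g) = pull g * pull f)
    (hL : ∀ f, ∀ x ∈ IntL n, pull f x ∈ IntL n) (hC : ∀ f, ∀ x ∈ C, pull f x ∈ C) :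
    Acts C (rangeSub hmul) := by
  constructor
  · rintro _ ⟨f, rfl⟩; exact hL f
  · rintro _ ⟨f, rfl⟩; exact hC f

omit [Group A] in
theorem plus_pull (hL : ∀ f, ∀ x ∈ IntL n, pull f x ∈ IntL n) (hC : ∀ f, ∀ x ∈ C, pull f x ∈ C)
    (f : A) {x : Fin n → ℝ} (hx : x ∈ Cp (IntL n) C) : pull f x ∈ Cp (IntL n) C := by
  classical
  obtain ⟨S, hS, hx⟩ := hx
  refine ⟨S.image (pull f : (Fin n → ℝ) →ₗ[ℝ] (Fin n → ℝ)), ?_, cone_image _ hx⟩
  intro a ha
  obtain ⟨b, hb, rfl⟩ := Finset.mem_image.1 ha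
  exact ⟨hL f _ (hS b hb).1, hC f _ (hS b hb).2⟩

/-- A fundamental domain on the rational hull exists if and only if the interior is covered. -/
theorem hasFD_plus_iff (h : Proper C) (hmul : ∀ f g, pull (f * g) = pull g * pull f)
    (hL : ∀ f, ∀ x ∈ IntL n, pull f x ∈ IntL n) (hC : ∀ f, ∀ x ∈ C, pull f x ∈ C) :
    HasFD pull (Cp (IntL n) C) ↔ Cov C (rangeSub hmul) := by
  constructor
  · intro hfd
    obtain ⟨S, hS, hSc⟩ := hfd.cover hmul
    refine ⟨S, fun a ha => ⟨(hS a ha).1, plus_subset h (hS a ha).2⟩, fun x hx => ?_⟩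
    obtain ⟨f, hf⟩ := hSc x (interior_subset_plus h hx)
    exact ⟨pull f, ⟨f, rfl⟩, hf⟩
  · rintro ⟨S, hS, hSc⟩
    refine HasFD.of_cover (sandwich_plus h) hmul hL (fun f x hx => plus_pull hL hC f hx) ?_ S
      (fun a ha => ⟨(hS a ha).1, plus_self (hS a ha).2 (hS a ha).1⟩) ?_
    · rintro x ⟨T, hT, hx⟩
      exact ⟨T, fun a ha => ⟨(hT a ha).1, plus_self (hT a ha).2 (hT a ha).1⟩, hx⟩
    · intro x hx
      obtain ⟨_, ⟨f, rfl⟩, hf⟩ := hSc x hx
      exact ⟨f, hf⟩

/-- The fundamental domain on the cone of nef and effective classes. -/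
theorem hasFD_iff (h : Proper C) {Nf : Set (Fin n → ℝ)} (hs : Sandwich C Nf)
    (hplus : ∀ x ∈ Nf, x ∈ Cp (IntL n) C)
    (hmul : ∀ f g, pull (f * g) = pull g * pull f)
    (hL : ∀ f, ∀ x ∈ IntL n, pull f x ∈ IntL n) (hC : ∀ f, ∀ x ∈ C, pull f x ∈ C)
    (hN : ∀ f, ∀ x ∈ Nf, pull f x ∈ Nf) :
    HasFD pull Nf ↔ (∀ x ∈ C, x ∈ IntL n → x ∈ Nf) ∧ MinFin C (rangeSub hmul) := by
  have ha := acts_range hmul hL hC
  constructor
  · intro hfd
    obtain ⟨S, hS, hSc⟩ := hfd.cover hmul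
    have hcov : Cov C (rangeSub hmul) := by
      refine ⟨S, fun a ha => ⟨(hS a ha).1, hs.Nsub (hS a ha).2⟩, fun x hx => ?_⟩
      obtain ⟨f, hf⟩ := hSc x (hs.Nint hx)
      exact ⟨pull f, ⟨f, rfl⟩, hf⟩
    refine ⟨?_, (cov_iff_minFin h ha).1 hcov⟩
    intro x hx hxL
    obtain ⟨ξ₀, y₀, Y, D, hy₀⟩ := exists_cdata (sandwich_plus h)
    have hL' : ∀ g ∈ rangeSub hmul, ∀ x ∈ IntL n, g x ∈ IntL n := by
      rintro _ ⟨f, rfl⟩; exact hL f
    have hN' : ∀ g ∈ rangeSub hmul, ∀ x ∈ Cp (IntL n) C, g x ∈ Cp (IntL n) C := by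
      rintro _ ⟨f, rfl⟩ x hx; exact plus_pull hL hC f hx
    obtain ⟨S', hS', hS'g, hS'c, -⟩ := domain' D (rangeSub hmul) hL' hN' S
      (fun a ha => ⟨(hS a ha).1, plus_self (hs.Nsub (hS a ha).2) (hS a ha).1⟩) (by
      rintro x ⟨t, ht, hx⟩
      have h1 : x ∈ interior C := by
        have h2 : t • y₀ + (x - t • y₀) ∈ interior C :=
          interior_add_mem h.add (interior_smul_mem h.smul ht hy₀) (plus_subset h hx)
        rwa [add_sub_cancel] at h2
      obtain ⟨f, hf⟩ := hSc x (hs.Nint h1)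
      exact ⟨pull f, ⟨f, rfl⟩, hf⟩)
    have hS'N : ∀ a ∈ S', a ∈ Nf := by
      intro a ha'
      obtain ⟨_, ⟨f, rfl⟩, hf⟩ := hS'g a ha'
      have h1 : pull f a ∈ Nf := cone_mem_Nf hs (fun b hb => (hS b hb).2) hf
      have h2 := hN f⁻¹ _ h1
      rwa [pull_inv_apply hmul] at h2
    have hxp : x ∈ Cp (IntL n) (Cp (IntL n) C) :=
      ⟨{x}, by simpa using ⟨hxL, plus_self hx hxL⟩, mem_cone_self (Finset.mem_singleton_self x)⟩
    obtain ⟨_, ⟨f, rfl⟩, hf⟩ := (hS'c x).1 hxp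
    have h1 : pull f x ∈ Nf := cone_mem_Nf hs hS'N hf
    have h2 := hN f⁻¹ _ h1
    rwa [pull_inv_apply hmul] at h2
  · rintro ⟨h1, h2⟩
    obtain ⟨S, hS, hSc⟩ := (cov_iff_minFin h ha).2 h2
    refine HasFD.of_cover hs hmul hL hN ?_ S
      (fun a ha => ⟨(hS a ha).1, h1 a (hS a ha).2 (hS a ha).1⟩) ?_
    · intro x hx
      obtain ⟨T, hT, hxT⟩ := hplus x hx
      exact ⟨T, fun a ha => ⟨(hT a ha).1, h1 a (hT a ha).2 (hT a ha).1⟩, hxT⟩
    · intro x hx
      obtain ⟨_, ⟨f, rfl⟩, hf⟩ := hSc x hx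
      exact ⟨f, hf⟩

end Pull

end Pool.Agent.Helper63.Mc
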