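import Pool.Agent.Helper63.Mc.Final

/-!
# A local criterion for the covering
-/

set_option autoImplicit false

namespace Pool.Agent.Helper63.Mc

open Pool.Agent.Y167 Pool.Agent.N165.KM Matrix Finset Topology

variable {n : ℕ}

/-- `ρ` is a conical limit point of `Γ`: there are `a` in the interior of `C`, arbitrarily small `s > 0`
and `g` in `Γ` such that the `g (ρ + s a)` are, up to scaling, in a compact subset of the interior. -/
def Conical (C : Set (Fin n → ℝ)) (Γ : Subgroup ((Fin n → ℝ) ≃ₗ[ℝ] (Fin n → ℝ)))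
    (ρ : Fin n → ℝ) : Prop :=
  ∃ a ∈ interior C, ∃ K : Set (Fin n → ℝ), IsCompact K ∧ K ⊆ interior C ∧
    ∀ ε : ℝ, 0 < ε → ∃ s : ℝ, 0 < s ∧ s < ε ∧ ∃ g ∈ Γ, ∃ k ∈ K, ∃ t : ℝ, 0 < t ∧
      g (ρ + s • a) = t • k

/-- The point `ρ` is of relative type. -/
def RelType (C : Set (Fin n → ℝ)) (Γ : Subgroup ((Fin n → ℝ) ≃ₗ[ℝ] (Fin n → ℝ)))
    (ρ : Fin n → ℝ) : Prop :=
  ∃ (R S : Finset (Fin n → ℝ)) (c : (Fin n → ℝ) → ℝ) (ζ : Fin n → ℝ),
    (∀ r ∈ R, r ∈ IntL n ∧ r ∈ C) ∧ (∀ r ∈ R, 0 < c r) ∧ ρ = ∑ r ∈ R, c r • r ∧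
    ζ ∈ IntL n ∧ (∀ x ∈ C, 0 ≤ x ⬝ᵥ ζ) ∧ (∀ r ∈ R, r ⬝ᵥ ζ = 0) ∧
    (∀ x ∈ C, x ⬝ᵥ ζ = 0 → x ∈ Submodule.span ℝ (R : Set (Fin n → ℝ))) ∧
    (∀ a ∈ S, a ∈ IntL n ∧ a ∈ C) ∧
    ∀ x ∈ interior C, ∃ g ∈ Γ, (∀ r ∈ R, g r = r) ∧
      ∃ σ ∈ cone S, g x - σ ∈ Submodule.span ℝ (R : Set (Fin n → ℝ))

/-- The interior is covered near `ρ` by translates of a rational polyhedral cone. -/
def LocCov (C : Set (Fin n → ℝ)) (Γ : Subgroup ((Fin n → ℝ) ≃ₗ[ℝ] (Fin n → ℝ)))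
    (ρ : Fin n → ℝ) : Prop :=
  ∃ (δ : ℝ) (S : Finset (Fin n → ℝ)), 0 < δ ∧ (∀ a ∈ S, a ∈ IntL n ∧ a ∈ C) ∧
    ∀ x ∈ interior C, ‖x - ρ‖ < δ → ∃ g ∈ Γ, g x ∈ cone S

variable {C : Set (Fin n → ℝ)} {Γ : Subgroup ((Fin n → ℝ) ≃ₗ[ℝ] (Fin n → ℝ))}

theorem sandwich_self (h : Proper C) : Sandwich C C where
  closed := h.closed
  add := h.add
  smul := h.smul
  pointed := h.pointed
  int := h.int
  Nsub := fun _ hx => hx
  Nint := fun _ hx => interior_subset hx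
  Nadd := h.add
  Nsmul := h.smul

/-- Points of a compact subset of the interior can be moved by a uniform amount. -/
theorem depth {K : Set (Fin n → ℝ)} (hK : IsCompact K) (hKC : K ⊆ interior C)
    (Y : Finset (Fin n → ℝ)) : ∃ ε : ℝ, 0 < ε ∧ ∀ k ∈ K, ∀ y ∈ Y, k - ε • y ∈ C := by
  obtain ⟨δ, hδ, hth⟩ := hK.exists_thickening_subset_open isOpen_interior hKC
  have hM : 0 ≤ ∑ y ∈ Y, ‖y‖ := Finset.sum_nonneg fun y _ => norm_nonneg y
  refine ⟨δ / (2 * (1 + ∑ y ∈ Y, ‖y‖)), by positivity, fun k hk y hy => ?_⟩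
  apply interior_subset
  apply hth
  rw [Metric.mem_thickening_iff]
  refine ⟨k, hk, ?_⟩
  rw [dist_eq_norm, sub_sub_cancel_left, norm_neg, norm_smul, Real.norm_eq_abs,
    abs_of_pos (by positivity)]
  have h1 : ‖y‖ ≤ ∑ y ∈ Y, ‖y‖ := Finset.single_le_sum (fun y _ => norm_nonneg y) hy
  calc δ / (2 * (1 + ∑ y ∈ Y, ‖y‖)) * ‖y‖ ≤ δ / (2 * (1 + ∑ y ∈ Y, ‖y‖)) * (1 + ∑ y ∈ Y, ‖y‖) :=
        mul_le_mul_of_nonneg_left (by linarith) (by positivity)
    _ = δ / 2 := by field_simp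
    _ < δ := by linarith

/-- The norm is bounded by the form `ξ`. -/
theorem norm_le_xi {ξ : (Fin n → ℝ) →ₗ[ℝ] ℝ} {y₀ : Fin n → ℝ} {Y : Finset (Fin n → ℝ)}
    (D : CData (IntL n) C ξ y₀ Y) : ∃ M : ℝ, 0 ≤ M ∧ ∀ x ∈ C, ‖x‖ ≤ M * ξ x := by
  choose B hB using fun i : Fin n => D.dom (LinearMap.proj i)
  refine ⟨∑ i, |B i|, Finset.sum_nonneg fun i _ => abs_nonneg _, fun x hx => ?_⟩
  have hx0 := D.xi_nonneg hx
  rw [pi_norm_le_iff_of_nonneg (mul_nonneg (Finset.sum_nonneg fun i _ => abs_nonneg _) hx0)]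
  intro i
  rw [Real.norm_eq_abs]
  refine (hB i x hx).trans (mul_le_mul_of_nonneg_right ?_ hx0)
  exact (le_abs_self _).trans (Finset.single_le_sum (f := fun i => |B i|)
    (fun i _ => abs_nonneg _) (Finset.mem_univ i))

/-- Every interior point can be moved to the Dirichlet domain of `ξ`. -/
theorem exists_dirichlet (ha : Acts C Γ) {ξ : (Fin n → ℝ) →ₗ[ℝ] ℝ} {y₀ : Fin n → ℝ}
    {Y : Finset (Fin n → ℝ)} (D : CData (IntL n) C ξ y₀ Y) {x : Fin n → ℝ}
    (hx : x ∈ interior C) : ∃ g ∈ Γ, ∀ g' ∈ Γ, ξ (g x) ≤ ξ (g' x) := by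
  obtain ⟨ε, hε, hd⟩ := depth (K := {x}) isCompact_singleton (by simpa using hx) Y
  have hfin : {g | g ∈ Γ ∧ ξ (g x) ≤ ξ x}.Finite := by
    refine (D.finite_small Γ ha.int ha.cone (ξ x / ε)).subset ?_
    rintro g ⟨hg, hgx⟩
    refine ⟨hg, fun y hy => ?_⟩
    have h1 := D.xi_nonneg (ha.cone g hg _ (hd x rfl y hy))
    rw [map_sub, map_sub, map_smul, map_smul, smul_eq_mul] at h1
    rw [le_div_iff₀ hε]
    linarith
  obtain ⟨g, ⟨hg, hgx⟩, hmin⟩ := Set.exists_min_image _ (fun g => ξ (g x)) hfin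
    ⟨1, Γ.one_mem, le_rfl⟩
  refine ⟨g, hg, fun g' hg' => ?_⟩
  rcases le_total (ξ (g' x)) (ξ x) with h1 | h1
  · exact hmin g' ⟨hg', h1⟩
  · exact hgx.trans h1

/-- A conical limit point is not in the Dirichlet domain. -/
theorem not_conical (h : Proper C) (ha : Acts C Γ) {ξ : (Fin n → ℝ) →ₗ[ℝ] ℝ} {y₀ : Fin n → ℝ}
    {Y : Finset (Fin n → ℝ)} (D : CData (IntL n) C ξ y₀ Y) (hy₀ : y₀ ∈ interior C)
    {ρ : Fin n → ℝ} (hρ : ρ ∈ C) (hρ0 : ρ ≠ 0) (hρi : ρ ∉ interior C)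
    (hP : ∀ g ∈ Γ, ξ ρ ≤ ξ (g ρ)) : ¬ Conical C Γ ρ := by
  classical
  rintro ⟨a, haC, K, hK, hKC, hcon⟩
  have hη : 0 < ξ ρ := D.xi_pos ρ hρ hρ0
  have hξc : Continuous ξ := LinearMap.continuous_of_finiteDimensional ξ
  obtain ⟨M, hM⟩ := hK.bddAbove_image hξc.continuousOn
  have hM' : ∀ k ∈ K, ξ k ≤ |M| + 1 := fun k hk => by
    have h1 := hM ⟨k, hk, rfl⟩
    have h2 := le_abs_self M
    linarith
  set M' : ℝ := |M| + 1 with hM'def
  have hM'0 : 0 < M' := by positivity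
  set t₀ : ℝ := ξ ρ / M' with ht₀
  have ht₀0 : 0 < t₀ := div_pos hη hM'0
  obtain ⟨ε, hε, hd⟩ := depth hK hKC (insert y₀ Y)
  have hξa : 0 ≤ ξ a := D.xi_nonneg (interior_subset haC)
  -- the parameter is bounded below
  have ht : ∀ (s : ℝ) (g : (Fin n → ℝ) ≃ₗ[ℝ] (Fin n → ℝ)) (k : Fin n → ℝ) (t : ℝ), 0 < s → g ∈ Γ →
      k ∈ K → 0 < t → g (ρ + s • a) = t • k → t₀ ≤ t := by
    intro s g k t hs hg hk ht he
    have h1 : ξ (g (ρ + s • a)) = t * ξ k := by rw [he, map_smul, smul_eq_mul]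
    have h2 : 0 ≤ ξ (g a) := D.xi_nonneg (ha.cone g hg a (interior_subset haC))
    rw [map_add, map_add, map_smul, map_smul, smul_eq_mul] at h1
    have h3 := hP g hg
    have h4 : t * ξ k ≤ t * M' := mul_le_mul_of_nonneg_left (hM' k hk) ht.le
    have h5 := mul_nonneg hs.le h2
    rw [ht₀, div_le_iff₀ hM'0]
    linarith
  choose! s hs0 hs g hg k hk t ht0 he using hcon
  -- the sequence
  let e : ℕ → ℝ := fun m => 1 / ((m : ℝ) + 1)
  have he0 : ∀ m, 0 < e m := fun m => by simp only [e]; positivity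
  have he1 : ∀ m, e m ≤ 1 := fun m => by
    simp only [e]
    rw [div_le_one (by positivity)]
    have : (0 : ℝ) ≤ m := Nat.cast_nonneg m
    linarith
  have hfin : (Set.range fun m => g (e m)).Finite := by
    have h1 : ((fun g : (Fin n → ℝ) ≃ₗ[ℝ] (Fin n → ℝ) => g⁻¹) ''
        {g | g ∈ Γ ∧ ∀ y ∈ Y, ξ (g y) ≤ (ξ ρ + ξ a) / t₀ / ε}).Finite :=
      (D.finite_small Γ ha.int ha.cone _).image _
    refine h1.subset ?_
    rintro _ ⟨m, rfl⟩
    have hgm := hg (e m) (he0 m)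
    refine ⟨(g (e m))⁻¹, ⟨Γ.inv_mem hgm, fun y hy => ?_⟩, inv_inv _⟩
    have h2 := D.xi_nonneg (ha.cone _ (Γ.inv_mem hgm) _
      (hd _ (hk (e m) (he0 m)) y (Finset.mem_insert_of_mem hy)))
    rw [map_sub, map_sub, map_smul, map_smul, smul_eq_mul] at h2
    have h3 : (g (e m))⁻¹ (t (e m) • k (e m)) = ρ + s (e m) • a := by
      rw [← he (e m) (he0 m), inv_apply']
    rw [map_smul] at h3
    have h4 := congrArg ξ h3
    rw [map_smul, map_add, map_smul, smul_eq_mul, smul_eq_mul] at h4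
    have h5 := ht _ _ _ _ (hs0 (e m) (he0 m)) hgm (hk _ (he0 m)) (ht0 _ (he0 m)) (he _ (he0 m))
    have h6 : s (e m) ≤ 1 := ((hs _ (he0 m)).trans_le (he1 m)).le
    have h7 : 0 ≤ ξ ((g (e m))⁻¹ (k (e m))) := D.xi_nonneg (ha.cone _ (Γ.inv_mem hgm) _
      (interior_subset (hKC (hk _ (he0 m)))))
    have h8 : t₀ * ξ ((g (e m))⁻¹ (k (e m))) ≤ ξ ρ + ξ a := by
      have h9 := mul_le_mul_of_nonneg_right h5 h7
      have h10 : s (e m) * ξ a ≤ 1 * ξ a := mul_le_mul_of_nonneg_right h6 hξa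
      linarith
    rw [le_div_iff₀ hε, le_div_iff₀ ht₀0]
    nlinarith
  -- pigeonhole
  obtain ⟨γ, hγ⟩ : ∃ γ, {m | g (e m) = γ}.Infinite := by
    by_contra hcon
    push Not at hcon
    have h1 : (Set.univ : Set ℕ) ⊆ ⋃ γ ∈ Set.range fun m => g (e m), {m | g (e m) = γ} := by
      intro m _
      simp only [Set.mem_iUnion]
      exact ⟨g (e m), ⟨m, rfl⟩, rfl⟩
    have h2 : (⋃ γ ∈ Set.range fun m => g (e m), {m | g (e m) = γ}).Finite :=
      hfin.biUnion fun γ _ => by simpa using hcon γ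
    exact Set.infinite_univ (h2.subset h1)
  have hγΓ : γ ∈ Γ := by
    obtain ⟨m, hm⟩ := hγ.nonempty
    have hm : g (e m) = γ := hm
    rw [← hm]; exact hg _ (he0 m)
  let φ : ℕ → ℕ := Nat.nth (fun m => g (e m) = γ)
  have hφ : StrictMono φ := Nat.nth_strictMono hγ
  have hφm : ∀ m, g (e (φ m)) = γ := fun m => Nat.nth_mem_of_infinite hγ m
  have hmem : ∀ m, γ (ρ + s (e (φ m)) • a) - (t₀ * ε) • y₀ ∈ C := by
    intro m
    have h1 := he (e (φ m)) (he0 _)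
    rw [hφm m] at h1
    have h2 := ht _ _ _ _ (hs0 (e (φ m)) (he0 _)) hγΓ (hk _ (he0 (φ m))) (ht0 _ (he0 (φ m))) h1
    have h3 := hd _ (hk _ (he0 (φ m))) y₀ (Finset.mem_insert_self _ _)
    have h4 := h.smul _ (ht0 _ (he0 (φ m))).le _ h3
    have h5 := h.smul ((t (e (φ m)) - t₀) * ε) (mul_nonneg (by linarith) hε.le) _ D.y_N
    have h6 := h.add _ h4 _ h5
    have h7 : t (e (φ m)) • (k (e (φ m)) - ε • y₀) + ((t (e (φ m)) - t₀) * ε) • y₀ =
        γ (ρ + s (e (φ m)) • a) - (t₀ * ε) • y₀ := by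
      rw [h1, smul_sub, smul_smul, sub_mul, sub_smul]
      abel
    rwa [h7] at h6
  have hlim : Filter.Tendsto (fun m => γ (ρ + s (e (φ m)) • a) - (t₀ * ε) • y₀) Filter.atTop
      (𝓝 (γ (ρ + (0 : ℝ) • a) - (t₀ * ε) • y₀)) := by
    have hγc : Continuous γ := LinearMap.continuous_of_finiteDimensional
      (γ : (Fin n → ℝ) →ₗ[ℝ] (Fin n → ℝ))
    have hs' : Filter.Tendsto (fun m => s (e (φ m))) Filter.atTop (𝓝 0) := by
      have h1 : Filter.Tendsto e Filter.atTop (𝓝 0) := tendsto_one_div_add_atTop_nhds_zero_nat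
      have h2 := h1.comp hφ.tendsto_atTop
      exact squeeze_zero (fun m => (hs0 _ (he0 _)).le) (fun m => (hs _ (he0 _)).le) h2
    have h3 : Continuous fun u : ℝ => γ (ρ + u • a) - (t₀ * ε) • y₀ := by
      have : Continuous fun u : ℝ => ρ + u • a := by fun_prop
      exact (hγc.comp this).sub continuous_const
    exact (h3.tendsto 0).comp hs'
  rw [zero_smul, add_zero] at hlim
  have h1 : γ ρ - (t₀ * ε) • y₀ ∈ C := h.closed.mem_of_tendsto hlim
    (Filter.Eventually.of_forall hmem)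
  have h2 : γ ρ ∈ interior C := by
    have h3 := interior_add_mem h.add
      (interior_smul_mem h.smul (mul_pos ht₀0 hε) hy₀) h1
    rwa [add_sub_cancel] at h3
  apply hρi
  have h3 := ha.interior (Γ.inv_mem hγΓ) h2
  rwa [inv_apply'] at h3

/-- Points of the span near a positive combination are in the cone. -/
theorem relint {R : Finset (Fin n → ℝ)} {c : (Fin n → ℝ) → ℝ} (hc : ∀ r ∈ R, 0 < c r) :
    ∃ ε : ℝ, 0 < ε ∧ ∀ v ∈ Submodule.span ℝ (R : Set (Fin n → ℝ)),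
      ‖v - ∑ r ∈ R, c r • r‖ ≤ ε → v ∈ cone R := by
  classical
  let e := R.equivFin
  let y : Fin R.card → (Fin n → ℝ) := fun i => (e.symm i).1
  have hrange : Set.range y = (R : Set (Fin n → ℝ)) := by
    ext x
    constructor
    · rintro ⟨i, rfl⟩; exact (e.symm i).2
    · intro hx
      exact ⟨e ⟨x, hx⟩, by simp [y]⟩
  have hsum : ∀ f : (Fin n → ℝ) → ℝ, ∑ r ∈ R, f r • r = ∑ i, f (y i) • y i := by
    intro f
    rw [← Finset.sum_coe_sort R (fun r => f r • r)]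
    exact (Equiv.sum_comp e.symm (fun r : R => f r.1 • r.1)).symm
  obtain ⟨K, hK0, hK⟩ := bounded_span y
  rw [hrange] at hK
  rcases R.eq_empty_or_nonempty with rfl | hne
  · refine ⟨1, one_pos, fun v hv _ => ?_⟩
    simp only [Finset.coe_empty, Submodule.span_empty, Submodule.mem_bot] at hv
    rw [hv]; exact zero_mem_cone _
  obtain ⟨r₀, hr₀, hmin⟩ := Finset.exists_min_image R c hne
  refine ⟨c r₀ / (K + 1), div_pos (hc r₀ hr₀) (by linarith), fun v hv hvd => ?_⟩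
  have h1 : v - ∑ r ∈ R, c r • r ∈ Submodule.span ℝ (R : Set (Fin n → ℝ)) :=
    Submodule.sub_mem _ hv (Submodule.sum_mem _ fun r hr =>
      Submodule.smul_mem _ _ (Submodule.subset_span hr))
  obtain ⟨a, ha, haK⟩ := hK _ h1
  have h2 : v = ∑ i, (c (y i) + a i) • y i := by
    have h3 : v = ∑ r ∈ R, c r • r + (v - ∑ r ∈ R, c r • r) := by abel
    rw [h3, ha, hsum, ← Finset.sum_add_distrib]
    exact Finset.sum_congr rfl fun i _ => (add_smul _ _ _).symm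
  rw [h2]
  refine mem_cone_of_sum _ _ _ (fun i _ => (e.symm i).2) fun i _ => ?_
  have h3 : |a i| ≤ c r₀ := by
    have hr₀' := hc r₀ hr₀
    calc |a i| ≤ K * ‖v - ∑ r ∈ R, c r • r‖ := haK i
      _ ≤ (K + 1) * (c r₀ / (K + 1)) := mul_le_mul (by linarith) hvd (norm_nonneg _) (by linarith)
      _ = c r₀ := by
          have : K + 1 ≠ 0 := by linarith
          field_simp
  have h4 := (abs_le.1 h3).1
  have h5 := hmin (y i) (e.symm i).2
  linarith

/-- Points of the Dirichlet domain near a point of relative type. -/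
theorem near_relType (h : Proper C) (ha : Acts C Γ) {ξ : (Fin n → ℝ) →ₗ[ℝ] ℝ} {y₀ : Fin n → ℝ}
    {Y : Finset (Fin n → ℝ)} (D : CData (IntL n) C ξ y₀ Y) {ρ : Fin n → ℝ}
    (hρ : RelType C Γ ρ) : ∃ (δ : ℝ) (S : Finset (Fin n → ℝ)), 0 < δ ∧
      (∀ a ∈ S, a ∈ IntL n ∧ a ∈ C) ∧
      ∀ x ∈ interior C, (∀ g ∈ Γ, ξ x ≤ ξ (g x)) → ‖x - ρ‖ < δ → ∃ g ∈ Γ, g x ∈ cone S := by
  classical
  obtain ⟨R, S, c, ζ, hR, hc, rfl, hζL, hζ0, hζR, hζV, hS, hcov⟩ := hρ
  set V := Submodule.span ℝ (R : Set (Fin n → ℝ)) with hV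
  set ρ := ∑ r ∈ R, c r • r with hρdef
  obtain ⟨M, hM0, hM⟩ := norm_le_xi D
  obtain ⟨ε, hε, hrel⟩ := relint hc
  set A : ℝ := ∑ a ∈ S, ξ a with hA
  have hA0 : ∀ a ∈ S, 0 ≤ ξ a := fun a haS => D.xi_nonneg (hS a haS).2
  have hA1 : ∀ a ∈ S, ξ a ≤ A := fun a haS => Finset.single_le_sum (f := fun a => ξ a) hA0 haS
  have hAnn : 0 ≤ A := Finset.sum_nonneg hA0
  have hρV : ρ ∈ V := Submodule.sum_mem _ fun r hr =>
    Submodule.smul_mem _ _ (Submodule.subset_span hr)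
  have hζρ : ∀ v ∈ V, v ⬝ᵥ ζ = 0 := by
    intro v hv
    induction hv using Submodule.span_induction with
    | mem x hx => exact hζR x hx
    | zero => simp
    | add x y _ _ hx hy => rw [add_dotProduct, hx, hy, add_zero]
    | smul t x _ hx => rw [smul_dotProduct, hx, smul_zero]
  set B : ℝ := n * ‖ζ‖ with hB
  have hB0 : 0 ≤ B := mul_nonneg (Nat.cast_nonneg n) (norm_nonneg ζ)
  refine ⟨ε / (1 + M * (A * B)), S ∪ R, by positivity, ?_, ?_⟩
  · intro a haS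
    rcases Finset.mem_union.1 haS with h1 | h1
    · exact hS a h1
    · exact hR a h1
  · intro x hx hP hxρ
    obtain ⟨g, hg, hgR, σ, ⟨w, hw, hσ⟩, hgσ⟩ := hcov x hx
    have hgV : ∀ v ∈ V, g v = v := by
      intro v hv
      induction hv using Submodule.span_induction with
      | mem x hx => exact hgR x hx
      | zero => simp
      | add x y _ _ hx hy => rw [map_add, hx, hy]
      | smul t x _ hx => rw [map_smul, hx]
    have hginvV : ∀ v ∈ V, g⁻¹ v = v := by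
      intro v hv
      conv_lhs => rw [← hgV v hv]
      exact inv_apply' g v
    let S₁ := S.filter fun a => a ∉ V
    set σ₁ := ∑ a ∈ S₁, w a • a with hσ₁
    have hσσ₁ : σ - σ₁ ∈ V := by
      have h1 : σ = ∑ a ∈ S.filter (fun a => a ∉ V), w a • a +
          ∑ a ∈ S.filter (fun a => ¬ a ∉ V), w a • a := by
        rw [hσ, Finset.sum_filter_add_sum_filter_not]
      rw [h1, hσ₁, add_sub_cancel_left]
      refine Submodule.sum_mem _ fun a haS => Submodule.smul_mem _ _ ?_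
      simpa using (Finset.mem_filter.1 haS).2
    obtain ⟨v, hv⟩ : ∃ v, v = g x - σ₁ := ⟨_, rfl⟩
    have hvV : v ∈ V := by
      have h1 : v = (g x - σ) + (σ - σ₁) := by rw [hv]; abel
      rw [h1]
      exact Submodule.add_mem _ hgσ hσσ₁
    have hxv : g⁻¹ σ₁ = x - v := by
      have h1 : σ₁ = g x - v := by rw [hv]; abel
      rw [h1, map_sub, inv_apply', hginvV v hvV]
    -- the coefficients are small
    have hS₁C : ∀ a ∈ S₁, a ∈ IntL n ∧ a ∈ C := fun a haS => hS a (Finset.mem_filter.1 haS).1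
    have hge1 : ∀ a ∈ S₁, 1 ≤ (g⁻¹ a) ⬝ᵥ ζ := by
      intro a haS
      have h1 := ha.int _ (Γ.inv_mem hg) a (hS₁C a haS).1
      have h2 := ha.cone _ (Γ.inv_mem hg) a (hS₁C a haS).2
      obtain ⟨m, hm⟩ := dot_int h1 hζL
      have h3 := hζ0 _ h2
      rw [hm] at h3 ⊢
      have h4 : m ≠ 0 := by
        rintro rfl
        have h5 : g⁻¹ a ∈ V := hζV _ h2 (by rw [hm]; simp)
        have h6 := hgV _ h5
        rw [inv_apply] at h6
        exact (Finset.mem_filter.1 haS).2 (by rw [h6]; exact h5)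
      have h7 : 0 ≤ m := by exact_mod_cast h3
      have h8 : 1 ≤ m := by omega
      exact_mod_cast h8
    have hsum : ∑ a ∈ S₁, w a ≤ B * ‖x - ρ‖ := by
      have h1 : (g⁻¹ σ₁) ⬝ᵥ ζ = (x - ρ) ⬝ᵥ ζ := by
        rw [hxv, sub_dotProduct, sub_dotProduct x ρ, hζρ v hvV, hζρ ρ hρV]
      have h2 : ∑ a ∈ S₁, w a ≤ (g⁻¹ σ₁) ⬝ᵥ ζ := by
        rw [hσ₁, map_sum, sum_dotProduct]
        refine Finset.sum_le_sum fun a haS => ?_
        rw [map_smul, smul_dotProduct, smul_eq_mul]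
        have := mul_le_mul_of_nonneg_left (hge1 a haS) (hw a)
        linarith
      have h3 := (le_abs_self ((x - ρ) ⬝ᵥ ζ)).trans (abs_dot_le (x - ρ) ζ)
      rw [h1] at h2
      rw [hB]
      linarith
    have hξσ₁ : ξ σ₁ ≤ A * (B * ‖x - ρ‖) := by
      rw [hσ₁, map_sum]
      calc ∑ a ∈ S₁, ξ (w a • a) ≤ ∑ a ∈ S₁, w a * A := by
            refine Finset.sum_le_sum fun a haS => ?_
            rw [map_smul, smul_eq_mul]
            exact mul_le_mul_of_nonneg_left (hA1 a (Finset.mem_filter.1 haS).1) (hw a)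
        _ = A * ∑ a ∈ S₁, w a := by rw [← Finset.sum_mul, mul_comm]
        _ ≤ A * (B * ‖x - ρ‖) := mul_le_mul_of_nonneg_left hsum hAnn
    have hσ₁C : σ₁ ∈ C := by
      have h1 : σ₁ ∈ cone S₁ := ⟨w, hw, hσ₁⟩
      exact cone_ind (p := fun x => x ∈ C) h.zero_mem (fun x y hx hy => h.add x hx y hy)
        (fun t x ht hx => h.smul t ht x hx) (fun a haS => (hS₁C a haS).2) h1
    have hginv : ξ (g⁻¹ σ₁) ≤ ξ σ₁ := by
      have h1 := hP g hg
      have h2 : x = g⁻¹ σ₁ + v := by rw [hxv]; abel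
      have h3 : g x = σ₁ + v := by rw [hv]; abel
      rw [h3, map_add] at h1
      have h4 := congrArg ξ h2
      rw [map_add] at h4
      linarith
    have hnorm : ‖g⁻¹ σ₁‖ ≤ M * (A * (B * ‖x - ρ‖)) :=
      (hM _ (ha.cone _ (Γ.inv_mem hg) _ hσ₁C)).trans
        (mul_le_mul_of_nonneg_left (hginv.trans hξσ₁) hM0)
    have hvρ : ‖v - ρ‖ ≤ ε := by
      have h1 : v - ρ = (x - ρ) - g⁻¹ σ₁ := by rw [hxv]; abel
      rw [h1]
      calc _ ≤ ‖x - ρ‖ + ‖g⁻¹ σ₁‖ := norm_sub_le _ _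
        _ ≤ (1 + M * (A * B)) * ‖x - ρ‖ := by
            have h2 : M * (A * (B * ‖x - ρ‖)) = M * (A * B) * ‖x - ρ‖ := by ring
            rw [h2] at hnorm
            linarith
        _ ≤ (1 + M * (A * B)) * (ε / (1 + M * (A * B))) :=
            mul_le_mul_of_nonneg_left hxρ.le (by positivity)
        _ = ε := by
            have : 1 + M * (A * B) ≠ 0 := by positivity
            field_simp
    refine ⟨g, hg, ?_⟩
    have h1 : g x = σ₁ + v := by rw [hv]; abel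
    rw [h1]
    refine cone_add ?_ (cone_mono Finset.subset_union_right (hrel v hvV hvρ))
    exact cone_mono ((Finset.filter_subset _ _).trans Finset.subset_union_left)
      (⟨w, hw, hσ₁⟩ : σ₁ ∈ cone S₁)

/-- Interior points are locally covered. -/
theorem locCov_interior (h : Proper C) {ρ : Fin n → ℝ} (hρ : ρ ∈ interior C) : LocCov C Γ ρ := by
  classical
  rcases Nat.eq_zero_or_pos n with rfl | hn
  · refine ⟨1, ∅, one_pos, by simp, fun x _ _ => ⟨1, Γ.one_mem, ?_⟩⟩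
    have : (1 : (Fin 0 → ℝ) ≃ₗ[ℝ] (Fin 0 → ℝ)) x = 0 := Subsingleton.elim _ _
    rw [this]
    exact zero_mem_cone _
  obtain ⟨r, hr, hball⟩ := Metric.isOpen_iff.1 isOpen_interior ρ hρ
  let p : Fin n → (Fin n → ℝ) := fun i => ρ + (r / 2) • (Pi.single i 1 : Fin n → ℝ)
  let q : Fin n → (Fin n → ℝ) := fun i => ρ - (r / 2) • (Pi.single i 1 : Fin n → ℝ)
  have hsn : ∀ i : Fin n, ‖(r / 2) • (Pi.single i 1 : Fin n → ℝ)‖ < r := by
    intro i
    have h3 : ‖(Pi.single i 1 : Fin n → ℝ)‖ ≤ 1 := by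
      rw [pi_norm_le_iff_of_nonneg zero_le_one]
      intro j
      by_cases hij : j = i
      · subst hij; simp
      · simp [hij]
    rw [norm_smul, Real.norm_eq_abs, abs_of_pos (half_pos hr)]
    calc r / 2 * ‖(Pi.single i 1 : Fin n → ℝ)‖ ≤ r / 2 * 1 :=
          mul_le_mul_of_nonneg_left h3 (half_pos hr).le
      _ < r := by linarith
  have hp : ∀ i, p i ∈ interior C := fun i => hball (by
    rw [mem_ball_iff_norm]
    simp only [p, add_sub_cancel_left]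
    exact hsn i)
  have hq : ∀ i, q i ∈ interior C := fun i => hball (by
    rw [mem_ball_iff_norm]
    simp only [q, sub_sub_cancel_left, norm_neg]
    exact hsn i)
  choose Sp hSp hpS using fun i => interior_subset_plus h (hp i)
  choose Sq hSq hqS using fun i => interior_subset_plus h (hq i)
  let S : Finset (Fin n → ℝ) := (Finset.univ.biUnion Sp) ∪ (Finset.univ.biUnion Sq)
  have hpS' : ∀ i, p i ∈ cone S := fun i => cone_mono ((Finset.subset_biUnion_of_mem Sp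
    (Finset.mem_univ i)).trans Finset.subset_union_left) (hpS i)
  have hqS' : ∀ i, q i ∈ cone S := fun i => cone_mono ((Finset.subset_biUnion_of_mem Sq
    (Finset.mem_univ i)).trans Finset.subset_union_right) (hqS i)
  have hnr : (0 : ℝ) < n := by exact_mod_cast hn
  refine ⟨r / (2 * n), S, by positivity, ?_, fun x _ hx => ⟨1, Γ.one_mem, ?_⟩⟩
  · intro a haS
    rcases Finset.mem_union.1 haS with h1 | h1
    · obtain ⟨i, -, h2⟩ := Finset.mem_biUnion.1 h1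
      exact hSp i a h2
    · obtain ⟨i, -, h2⟩ := Finset.mem_biUnion.1 h1
      exact hSq i a h2
  · change x ∈ cone S
    -- coordinates
    let d : Fin n → ℝ := fun i => (x - ρ) i
    have hd : ∀ i, |d i| ≤ r / (2 * n) := fun i => by
      have h1 := norm_le_pi_norm (x - ρ) i
      rw [Real.norm_eq_abs] at h1
      exact h1.trans hx.le
    let θ : Fin n → ℝ := fun i => n * d i / r
    have hθ : ∀ i, |θ i| ≤ 1 / 2 := by
      intro i
      have h1 : θ i = (n / r) * d i := by simp only [θ]; ring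
      rw [h1, abs_mul, abs_of_pos (by positivity)]
      calc n / r * |d i| ≤ n / r * (r / (2 * n)) :=
            mul_le_mul_of_nonneg_left (hd i) (by positivity)
        _ = 1 / 2 := by field_simp
    have hx1 : x = ∑ i, (((1 / (n : ℝ)) * (1 / 2 + θ i)) • p i +
        ((1 / (n : ℝ)) * (1 / 2 - θ i)) • q i) := by
      have h2 : ∀ i : Fin n, ((1 / (n : ℝ)) * (1 / 2 + θ i)) • p i +
          ((1 / (n : ℝ)) * (1 / 2 - θ i)) • q i =
          (1 / (n : ℝ)) • ρ + d i • (Pi.single i 1 : Fin n → ℝ) := by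
        intro i
        simp only [p, q]
        rw [smul_add, smul_sub, smul_smul, smul_smul]
        have h3 : ((1 / (n : ℝ)) * (1 / 2 + θ i)) • ρ +
            (1 / (n : ℝ) * (1 / 2 + θ i) * (r / 2)) • (Pi.single i 1 : Fin n → ℝ) +
            (((1 / (n : ℝ)) * (1 / 2 - θ i)) • ρ -
            (1 / (n : ℝ) * (1 / 2 - θ i) * (r / 2)) • (Pi.single i 1 : Fin n → ℝ)) =
            (((1 / (n : ℝ)) * (1 / 2 + θ i)) + ((1 / (n : ℝ)) * (1 / 2 - θ i))) • ρ +
            ((1 / (n : ℝ) * (1 / 2 + θ i) * (r / 2)) -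
              (1 / (n : ℝ) * (1 / 2 - θ i) * (r / 2))) • (Pi.single i 1 : Fin n → ℝ) := by
          rw [add_smul, sub_smul]; abel
        rw [h3]
        congr 2
        · ring
        · simp only [θ]
          field_simp
          ring
      rw [Finset.sum_congr rfl fun i _ => h2 i, Finset.sum_add_distrib, Finset.sum_const,
        Finset.card_univ, Fintype.card_fin, ← Nat.cast_smul_eq_nsmul ℝ, smul_smul,
        mul_one_div_cancel hnr.ne', one_smul]
      ext j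
      rw [Pi.add_apply, Finset.sum_apply]
      have h4 : ∑ i, (d i • (Pi.single i 1 : Fin n → ℝ)) j = d j := by
        rw [Finset.sum_eq_single j]
        · simp
        · intro b _ hb
          simp [hb.symm]
        · simp
      rw [h4]
      simp [d]
    rw [hx1]
    refine cone_sum _ _ fun i _ => cone_add (cone_smul (hpS' i) ?_) (cone_smul (hqS' i) ?_)
    · have := (abs_le.1 (hθ i)).1
      exact mul_nonneg (by positivity) (by linarith)
    · have := (abs_le.1 (hθ i)).2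
      exact mul_nonneg (by positivity) (by linarith)

/-- **The local criterion.** -/
theorem cov_of_local (h : Proper C) (ha : Acts C Γ)
    (hloc : ∀ ρ ∈ C, ρ ≠ 0 → ρ ∉ interior C → Conical C Γ ρ ∨ RelType C Γ ρ ∨ LocCov C Γ ρ) :
    Cov C Γ := by
  classical
  obtain ⟨ξ, y₀, Y, D, hy₀⟩ := exists_cdata (sandwich_self h)
  have hξc : Continuous ξ := LinearMap.continuous_of_finiteDimensional ξ
  have hgc : ∀ g : (Fin n → ℝ) ≃ₗ[ℝ] (Fin n → ℝ), Continuous g := fun g =>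
    LinearMap.continuous_of_finiteDimensional (g : (Fin n → ℝ) →ₗ[ℝ] (Fin n → ℝ))
  let P : Set (Fin n → ℝ) := {x | x ∈ C ∧ ∀ g ∈ Γ, ξ x ≤ ξ (g x)}
  have hPc : IsClosed P := by
    have h1 : P = C ∩ ⋂ g ∈ Γ, {x | ξ x ≤ ξ (g x)} := by
      ext x
      simp [P]
    rw [h1]
    exact h.closed.inter (isClosed_biInter fun g _ =>
      isClosed_le hξc (hξc.comp (hgc g)))
  let Q : Set (Fin n → ℝ) := P ∩ Metric.sphere 0 1
  have hQ : IsCompact Q := (isCompact_sphere 0 1).inter_left hPc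
  have hQloc : ∀ ρ ∈ Q, ∃ (δ : ℝ) (S : Finset (Fin n → ℝ)), 0 < δ ∧
      (∀ a ∈ S, a ∈ IntL n ∧ a ∈ C) ∧
      ∀ x ∈ interior C, (∀ g ∈ Γ, ξ x ≤ ξ (g x)) → ‖x - ρ‖ < δ → ∃ g ∈ Γ, g x ∈ cone S := by
    rintro ρ ⟨⟨hρC, hρP⟩, hρ1⟩
    have hρ0 : ρ ≠ 0 := by
      rintro rfl
      simp at hρ1
    have hlc : LocCov C Γ ρ → ∃ (δ : ℝ) (S : Finset (Fin n → ℝ)), 0 < δ ∧
      (∀ a ∈ S, a ∈ IntL n ∧ a ∈ C) ∧
      ∀ x ∈ interior C, (∀ g ∈ Γ, ξ x ≤ ξ (g x)) → ‖x - ρ‖ < δ → ∃ g ∈ Γ, g x ∈ cone S := by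
      rintro ⟨δ, S, hδ, hS, hc⟩
      exact ⟨δ, S, hδ, hS, fun x hx _ hxρ => hc x hx hxρ⟩
    by_cases hi : ρ ∈ interior C
    · exact hlc (locCov_interior h hi)
    · rcases hloc ρ hρC hρ0 hi with h1 | h1 | h1
      · exact absurd h1 (not_conical h ha D hy₀ hρC hρ0 hi hρP)
      · exact near_relType h ha D h1
      · exact hlc h1
  choose! δ S hδ hS hc using hQloc
  obtain ⟨T, hTQ, hcov⟩ := hQ.elim_nhds_subcover (fun ρ => Metric.ball ρ (δ ρ))
    (fun ρ hρ => Metric.ball_mem_nhds ρ (hδ ρ hρ))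
  refine ⟨T.biUnion S, ?_, ?_⟩
  · intro a haS
    obtain ⟨ρ, hρ, h1⟩ := Finset.mem_biUnion.1 haS
    exact hS ρ (hTQ ρ hρ) a h1
  · intro x hx
    obtain ⟨g, hg, hmin⟩ := exists_dirichlet ha D hx
    have hgx : g x ∈ interior C := ha.interior hg hx
    have hgP : ∀ g' ∈ Γ, ξ (g x) ≤ ξ (g' (g x)) := by
      intro g' hg'
      exact hmin (g' * g) (Γ.mul_mem hg' hg)
    by_cases h0 : g x = 0
    · exact ⟨g, hg, by rw [h0]; exact zero_mem_cone _⟩
    have hn : 0 < ‖g x‖ := norm_pos_iff.2 h0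
    set u := ‖g x‖⁻¹ • g x with hu
    have huC : u ∈ interior C := interior_smul_mem h.smul (inv_pos.2 hn) hgx
    have huP : ∀ g' ∈ Γ, ξ u ≤ ξ (g' u) := by
      intro g' hg'
      rw [hu, map_smul, map_smul, map_smul, smul_eq_mul, smul_eq_mul]
      exact mul_le_mul_of_nonneg_left (hgP g' hg') (inv_nonneg.2 hn.le)
    have huQ : u ∈ Q := ⟨⟨interior_subset huC, huP⟩, by
      rw [mem_sphere_zero_iff_norm, hu, norm_smul, norm_inv, norm_norm, inv_mul_cancel₀ hn.ne']⟩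
    have h1 := hcov huQ
    simp only [Set.mem_iUnion] at h1
    obtain ⟨ρ, hρ, h2⟩ := h1
    rw [mem_ball_iff_norm] at h2
    obtain ⟨g', hg', h3⟩ := hc ρ (hTQ ρ hρ) u huC huP h2
    refine ⟨g' * g, Γ.mul_mem hg' hg, ?_⟩
    have h4 : (g' * g) x = ‖g x‖ • g' u := by
      change g' (g x) = _
      rw [hu, map_smul, smul_smul, mul_inv_cancel₀ hn.ne', one_smul]
    rw [h4]
    exact cone_mono (Finset.subset_biUnion_of_mem S hρ) (cone_smul h3 hn.le)

end Pool.Agent.Helper63.Mc
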