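import Pool.Agent.Helper63.Mc.Fin

/-!
# Lattice vectors near a ray
-/

set_option autoImplicit false

namespace Pool.Agent.Helper63.Mc

open Finset Filter Topology Pool.Agent.Y167 Module

variable {n : ℕ}

/-- `L` is a full lattice: it spans the space, and bounded subsets are finite. -/
structure IsLat (L : AddSubgroup (Fin n → ℝ)) : Prop where
  span : Submodule.span ℝ (L : Set (Fin n → ℝ)) = ⊤
  fin : ∀ R : ℝ, {x | x ∈ L ∧ ‖x‖ ≤ R}.Finite

/-- The vectors of `L` in the `δ`-neighbourhood of the ray spanned by `ρ`. -/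
def Near (L : AddSubgroup (Fin n → ℝ)) (ρ : Fin n → ℝ) (δ : ℝ) : Set (Fin n → ℝ) :=
  {y | y ∈ L ∧ ∃ t : ℝ, 0 ≤ t ∧ ‖y - t • ρ‖ < δ}

/-- A finite family which spans the same space. -/
theorem exists_family (N : Set (Fin n → ℝ)) : ∃ (k : ℕ) (y : Fin k → (Fin n → ℝ)),
    k = finrank ℝ (Submodule.span ℝ N) ∧ (∀ i, y i ∈ N) ∧
      Submodule.span ℝ (Set.range y) = Submodule.span ℝ N := by
  obtain ⟨f, hf, hs, -⟩ := Submodule.exists_fun_fin_finrank_span_eq ℝ N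
  exact ⟨_, f, rfl, hf, hs⟩

/-- Rounding up the coordinates. -/
theorem split_ceil {L : AddSubgroup (Fin n → ℝ)} {k : ℕ} (y : Fin k → (Fin n → ℝ))
    (hy : ∀ i, y i ∈ L) {v : Fin n → ℝ} (hv : v ∈ Submodule.span ℝ (Set.range y)) :
    ∃ w ∈ L, w ∈ Submodule.span ℝ (Set.range y) ∧ ∃ c : Fin k → ℝ, (∀ i, 0 ≤ c i ∧ c i ≤ 1) ∧
      v + w = ∑ i, c i • y i := by
  obtain ⟨a, rfl⟩ := (Submodule.mem_span_range_iff_exists_fun ℝ).1 hv
  refine ⟨∑ i, (⌈-a i⌉ : ℤ) • y i, L.sum_mem fun i _ => L.zsmul_mem (hy i) _,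
    Submodule.sum_mem _ fun i _ => ?_, fun i => a i + (⌈-a i⌉ : ℤ), fun i => ⟨?_, ?_⟩, ?_⟩
  · rw [← Int.cast_smul_eq_zsmul ℝ]
    exact Submodule.smul_mem _ _ (Submodule.subset_span ⟨i, rfl⟩)
  · have := Int.le_ceil (-a i)
    linarith
  · have := (Int.ceil_lt_add_one (-a i)).le
    linarith
  · rw [← Finset.sum_add_distrib]
    refine Finset.sum_congr rfl fun i _ => ?_
    rw [add_smul, Int.cast_smul_eq_zsmul]

theorem norm_sum_le_of_Icc {k : ℕ} (y : Fin k → (Fin n → ℝ)) {c : Fin k → ℝ}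
    (hc : ∀ i, 0 ≤ c i ∧ c i ≤ 1) : ‖∑ i, c i • y i‖ ≤ ∑ i, ‖y i‖ := by
  refine (norm_sum_le _ _).trans (Finset.sum_le_sum fun i _ => ?_)
  rw [norm_smul, Real.norm_eq_abs, abs_of_nonneg (hc i).1]
  calc c i * ‖y i‖ ≤ 1 * ‖y i‖ := mul_le_mul_of_nonneg_right (hc i).2 (norm_nonneg _)
    _ = ‖y i‖ := one_mul _

/-- Recurrence: there are far lattice vectors near every ray. -/
theorem recur {L : AddSubgroup (Fin n → ℝ)} (hL : IsLat L) (ρ : Fin n → ℝ) {δ T : ℝ} (hδ : 0 < δ)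
    (hT : 0 ≤ T) : ∃ y ∈ L, ∃ t : ℝ, T ≤ t ∧ ‖y - t • ρ‖ < δ := by
  obtain ⟨k, y, -, hyL, hyspan⟩ := exists_family (L : Set (Fin n → ℝ))
  have hspan : ∀ v, v ∈ Submodule.span ℝ (Set.range y) := by
    intro v
    rw [hyspan, hL.span]
    exact Submodule.mem_top
  choose w hwL hwS c hc hwc using fun m : ℕ => split_ceil y hyL (hspan (-((m : ℝ) * T) • ρ))
  have hbd : ∀ m, w m - ((m : ℝ) * T) • ρ ∈ Metric.closedBall (0 : Fin n → ℝ) (∑ i, ‖y i‖) := by
    intro m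
    rw [mem_closedBall_zero_iff]
    have h1 : w m - ((m : ℝ) * T) • ρ = ∑ i, c m i • y i := by
      rw [← hwc m, neg_smul]
      abel
    rw [h1]
    exact norm_sum_le_of_Icc y (hc m)
  obtain ⟨a, -, φ, hφ, hlim⟩ := tendsto_subseq_of_bounded Metric.isBounded_closedBall hbd
  obtain ⟨N, hN⟩ := (Metric.tendsto_atTop.1 hlim) (δ / 2) (half_pos hδ)
  have h1 := hN N le_rfl
  have h2 := hN (N + 1) (Nat.le_succ N)
  have hlt : φ N < φ (N + 1) := hφ (Nat.lt_succ_self N)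
  refine ⟨w (φ (N + 1)) - w (φ N), L.sub_mem (hwL _) (hwL _), ((φ (N + 1) : ℝ) - φ N) * T, ?_, ?_⟩
  · have h3 : (1 : ℝ) ≤ (φ (N + 1) : ℝ) - φ N := by
      have : (φ N : ℝ) + 1 ≤ φ (N + 1) := by exact_mod_cast hlt
      linarith
    calc T = 1 * T := (one_mul T).symm
      _ ≤ _ := mul_le_mul_of_nonneg_right h3 hT
  · have h3 : w (φ (N + 1)) - w (φ N) - (((φ (N + 1) : ℝ) - φ N) * T) • ρ =
        (w (φ (N + 1)) - ((φ (N + 1) : ℝ) * T) • ρ) - (w (φ N) - ((φ N : ℝ) * T) • ρ) := by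
      rw [sub_mul, sub_smul]
      abel
    rw [h3, ← dist_eq_norm]
    calc dist _ _ ≤ dist (w (φ (N + 1)) - ((φ (N + 1) : ℝ) * T) • ρ) a
          + dist a (w (φ N) - ((φ N : ℝ) * T) • ρ) := dist_triangle _ _ _
      _ < δ / 2 + δ / 2 := by
          rw [dist_comm a]
          exact add_lt_add h2 h1
      _ = δ := add_halves δ

theorem near_mono {L : AddSubgroup (Fin n → ℝ)} {ρ : Fin n → ℝ} {δ δ' : ℝ} (h : δ ≤ δ') :
    Near L ρ δ ⊆ Near L ρ δ' := by
  rintro y ⟨hy, t, ht, hyt⟩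
  exact ⟨hy, t, ht, lt_of_lt_of_le hyt h⟩

/-- The span of the near vectors is constant for small neighbourhoods. -/
theorem near_stable (L : AddSubgroup (Fin n → ℝ)) (ρ : Fin n → ℝ) {r : ℝ} (hr : 0 < r) :
    ∃ δ₀ : ℝ, 0 < δ₀ ∧ δ₀ ≤ r ∧ ∀ δ : ℝ, 0 < δ → δ ≤ δ₀ →
      Submodule.span ℝ (Near L ρ δ) = Submodule.span ℝ (Near L ρ δ₀) := by
  let A : Set ℕ := {k | ∃ δ : ℝ, 0 < δ ∧ δ ≤ r ∧ finrank ℝ (Submodule.span ℝ (Near L ρ δ)) = k}
  have hA : A.Nonempty := ⟨_, r, hr, le_rfl, rfl⟩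
  obtain ⟨δ₀, h0, h1, h2⟩ := Nat.sInf_mem hA
  refine ⟨δ₀, h0, h1, fun δ hδ hδ0 => ?_⟩
  refine Submodule.eq_of_le_of_finrank_le (Submodule.span_mono (near_mono hδ0)) ?_
  rw [h2]
  exact Nat.sInf_le ⟨δ, hδ, hδ0.trans h1, rfl⟩

/-- The direction of the ray is in the span of the near vectors. -/
theorem mem_near_span {L : AddSubgroup (Fin n → ℝ)} (hL : IsLat L) (ρ : Fin n → ℝ) {δ₀ : ℝ}
    (hδ : 0 < δ₀) : ρ ∈ Submodule.span ℝ (Near L ρ δ₀) := by
  have hcl : IsClosed (Submodule.span ℝ (Near L ρ δ₀) : Set (Fin n → ℝ)) :=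
    Submodule.closed_of_finiteDimensional _
  rw [← SetLike.mem_coe, ← hcl.closure_eq, Metric.mem_closure_iff]
  intro ε hε
  obtain ⟨y, hy, t, ht, hyt⟩ := recur hL ρ (lt_min hδ hε) zero_le_one
  have ht0 : 0 < t := lt_of_lt_of_le one_pos ht
  refine ⟨t⁻¹ • y, Submodule.smul_mem _ _ (Submodule.subset_span
    ⟨hy, t, ht0.le, lt_of_lt_of_le hyt (min_le_left _ _)⟩), ?_⟩
  rw [dist_comm, dist_eq_norm]
  have h1 : t⁻¹ • y - ρ = t⁻¹ • (y - t • ρ) := by
    rw [smul_sub, smul_smul, inv_mul_cancel₀ ht0.ne', one_smul]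
  rw [h1, norm_smul, norm_inv, Real.norm_eq_abs, abs_of_pos ht0]
  calc t⁻¹ * ‖y - t • ρ‖ ≤ 1 * ‖y - t • ρ‖ :=
        mul_le_mul_of_nonneg_right (inv_le_one_of_one_le₀ ht) (norm_nonneg _)
    _ < ε := by rw [one_mul]; exact lt_of_lt_of_le hyt (min_le_right _ _)

/-- The cone generated by finitely many near vectors contains a neighbourhood of the ray. -/
theorem local_cone {L : AddSubgroup (Fin n → ℝ)} (hL : IsLat L) {ρ : Fin n → ℝ} (hρ : ρ ≠ 0)
    {δ₀ : ℝ} (hδ : 0 < δ₀) (hst : ∀ δ : ℝ, 0 < δ → δ ≤ δ₀ →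
      Submodule.span ℝ (Near L ρ δ) = Submodule.span ℝ (Near L ρ δ₀)) :
    ∃ Y : Finset (Fin n → ℝ), (∀ a ∈ Y, a ∈ Near L ρ δ₀) ∧ ∃ ε : ℝ, 0 < ε ∧
      ∀ v ∈ Submodule.span ℝ (Near L ρ δ₀), ∀ t : ℝ, 0 < t → ‖v - t • ρ‖ ≤ ε * t → v ∈ cone Y := by
  classical
  obtain ⟨k, y, hk, hyN, hyspan⟩ := exists_family (Near L ρ (δ₀ / 2))
  replace hyspan := hyspan.trans (hst _ (half_pos hδ) (by linarith))
  have hk0 : 0 < k := by
    rw [hk, hst _ (half_pos hδ) (by linarith)]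
    have : Nontrivial (Submodule.span ℝ (Near L ρ δ₀)) :=
      ⟨⟨⟨ρ, mem_near_span hL ρ hδ⟩, 0, fun h => hρ (congrArg Subtype.val h)⟩⟩
    exact finrank_pos
  obtain ⟨K, hK0, hK⟩ := bounded_span y
  rw [hyspan] at hK
  choose hyL t ht0 hyt using hyN
  -- a far vector
  set η : ℝ := min (δ₀ / 2) (1 / (2 * (K + 1) * k)) with hη
  have hkr : (0 : ℝ) < k := by exact_mod_cast hk0
  have hη0 : 0 < η := lt_min (half_pos hδ) (by positivity)
  obtain ⟨z, hzL, τ, hτ, hzτ⟩ := recur hL ρ (T := 1 + ∑ i, t i) hη0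
    (add_nonneg zero_le_one (Finset.sum_nonneg fun i _ => ht0 i))
  have hτi : ∀ i, t i ≤ τ := fun i => by
    have h1 : t i ≤ ∑ i, t i := Finset.single_le_sum (fun j _ => ht0 j) (Finset.mem_univ i)
    linarith
  have hτ1 : 1 ≤ τ := by
    have h1 : 0 ≤ ∑ i, t i := Finset.sum_nonneg fun i _ => ht0 i
    linarith
  have hτ0 : 0 < τ := by linarith
  have hzN : z ∈ Near L ρ δ₀ := ⟨hzL, τ, hτ0.le,
    lt_of_lt_of_le (lt_of_lt_of_le hzτ (min_le_left _ _)) (by linarith)⟩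
  let Y : Finset (Fin n → ℝ) := (Finset.univ.image y) ∪ (Finset.univ.image fun i => z - y i)
  have hY1 : ∀ i, y i ∈ cone Y := fun i => mem_cone_self
    (Finset.mem_union_left _ (Finset.mem_image_of_mem _ (Finset.mem_univ _)))
  have hY2 : ∀ i, z - y i ∈ cone Y := fun i => mem_cone_self
    (Finset.mem_union_right _ (Finset.mem_image_of_mem _ (Finset.mem_univ _)))
  refine ⟨Y, ?_, η / τ, div_pos hη0 hτ0, ?_⟩
  · intro a ha
    rcases Finset.mem_union.1 ha with h | h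
    · obtain ⟨i, -, rfl⟩ := Finset.mem_image.1 h
      exact ⟨hyL i, t i, ht0 i, (hyt i).trans (by linarith)⟩
    · obtain ⟨i, -, rfl⟩ := Finset.mem_image.1 h
      refine ⟨L.sub_mem hzL (hyL i), τ - t i, by linarith [hτi i], ?_⟩
      have h1 : z - y i - (τ - t i) • ρ = (z - τ • ρ) - (y i - t i • ρ) := by
        rw [sub_smul]; abel
      rw [h1]
      calc ‖(z - τ • ρ) - (y i - t i • ρ)‖ ≤ ‖z - τ • ρ‖ + ‖y i - t i • ρ‖ := norm_sub_le _ _
        _ < δ₀ / 2 + δ₀ / 2 := add_lt_add (lt_of_lt_of_le hzτ (min_le_left _ _)) (hyt i)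
        _ = δ₀ := add_halves _
  · intro v hv s hs hvs
    -- scale
    have hmain : ∀ u ∈ Submodule.span ℝ (Near L ρ δ₀), ‖u - τ • ρ‖ ≤ η → u ∈ cone Y := by
      intro u hu huτ
      have hwV : u - z ∈ Submodule.span ℝ (Near L ρ δ₀) :=
        Submodule.sub_mem _ hu (Submodule.subset_span hzN)
      obtain ⟨a, ha, haK⟩ := hK _ hwV
      have hw : ‖u - z‖ ≤ 2 * η := by
        have h1 : u - z = (u - τ • ρ) - (z - τ • ρ) := by abel
        rw [h1]
        calc _ ≤ ‖u - τ • ρ‖ + ‖z - τ • ρ‖ := norm_sub_le _ _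
          _ ≤ 2 * η := by linarith
      have hak : ∀ i, |a i| ≤ 1 / k := by
        intro i
        have h1 : η ≤ 1 / (2 * (K + 1) * k) := min_le_right _ _
        calc |a i| ≤ K * ‖u - z‖ := haK i
          _ ≤ (K + 1) * (2 * η) := by
              refine mul_le_mul (by linarith) hw (norm_nonneg _) (by linarith)
          _ ≤ (K + 1) * (2 * (1 / (2 * (K + 1) * k))) := by
              refine mul_le_mul_of_nonneg_left ?_ (by linarith)
              linarith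
          _ = 1 / k := by
              have : K + 1 ≠ 0 := by positivity
              field_simp
      have h3 : u = ∑ i, ((1 / (k : ℝ)) • (z - y i) + (1 / (k : ℝ) + a i) • y i) := by
        have h4 : u = z + ∑ i, a i • y i := by rw [← ha]; abel
        have h5 : ∀ i : Fin k, (1 / (k : ℝ)) • (z - y i) + (1 / (k : ℝ) + a i) • y i =
            (1 / (k : ℝ)) • z + a i • y i := by
          intro i
          rw [smul_sub, add_smul]; abel
        rw [Finset.sum_congr rfl fun i _ => h5 i, Finset.sum_add_distrib, Finset.sum_const,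
          Finset.card_univ, Fintype.card_fin, ← Nat.cast_smul_eq_nsmul ℝ, smul_smul,
          mul_one_div_cancel hkr.ne', one_smul]
        exact h4
      rw [h3]
      refine cone_sum _ _ fun i _ => cone_add (cone_smul (hY2 i) (by positivity))
        (cone_smul (hY1 i) ?_)
      have := (abs_le.1 (hak i)).1
      linarith
    have h1 : (τ / s) • v ∈ cone Y := by
      refine hmain _ (Submodule.smul_mem _ _ hv) ?_
      have h2 : (τ / s) • v - τ • ρ = (τ / s) • (v - s • ρ) := by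
        rw [smul_sub, smul_smul, div_mul_cancel₀ _ hs.ne']
      rw [h2, norm_smul, Real.norm_eq_abs, abs_of_pos (div_pos hτ0 hs)]
      calc τ / s * ‖v - s • ρ‖ ≤ τ / s * (η / τ * s) :=
            mul_le_mul_of_nonneg_left hvs (div_pos hτ0 hs).le
        _ = η := by field_simp
    have h2 := cone_smul h1 (t := s / τ) (div_pos hs hτ0).le
    rw [smul_smul] at h2
    have h3 : s / τ * (τ / s) = 1 := by field_simp
    rwa [h3, one_smul] at h2

end Pool.Agent.Helper63.Mc
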