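import Pool.Agent.Helper63.Mc.Loc

/-!
# The relative covering is necessary
-/

set_option autoImplicit false

namespace Pool.Agent.Helper63.Mc

open Pool.Agent.Y167 Pool.Agent.N165.KM Matrix Finset Topology

variable {n : ℕ} {C : Set (Fin n → ℝ)} {Γ : Subgroup ((Fin n → ℝ) ≃ₗ[ℝ] (Fin n → ℝ))}

/-- Two forms which are positive on the cone are comparable. -/
theorem xi_comparable (ha : Acts C Γ) {ξ : (Fin n → ℝ) →ₗ[ℝ] ℝ} {y₀ : Fin n → ℝ}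
    {Y : Finset (Fin n → ℝ)} (D : CData (IntL n) C ξ y₀ Y) {t : (Fin n → ℝ) ≃ₗ[ℝ] (Fin n → ℝ)}
    (ht : t ∈ Γ) : ∃ M : ℝ, 0 < M ∧ ∀ x ∈ C, ξ x ≤ M * ξ (t x) := by
  obtain ⟨B, hB⟩ := D.dom (ξ.comp (t⁻¹ : (Fin n → ℝ) ≃ₗ[ℝ] (Fin n → ℝ)).toLinearMap)
  refine ⟨|B| + 1, by positivity, fun x hx => ?_⟩
  have h1 := hB (t x) (ha.cone t ht x hx)
  have h2 : (ξ.comp (t⁻¹ : (Fin n → ℝ) ≃ₗ[ℝ] (Fin n → ℝ)).toLinearMap) (t x) = ξ x := by
    change ξ (t⁻¹ (t x)) = ξ x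
    rw [inv_apply']
  rw [h2] at h1
  have h3 : 0 ≤ ξ (t x) := D.xi_nonneg (ha.cone t ht x hx)
  have h4 := (le_abs_self _).trans h1
  have h5 : B * ξ (t x) ≤ (|B| + 1) * ξ (t x) :=
    mul_le_mul_of_nonneg_right ((le_abs_self B).trans (by linarith)) h3
  linarith

/-- The relative covering modulo the span of `R`, by elements which fix `R`. -/
def RelCov (C : Set (Fin n → ℝ)) (Γ : Subgroup ((Fin n → ℝ) ≃ₗ[ℝ] (Fin n → ℝ)))
    (R : Finset (Fin n → ℝ)) : Prop :=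
  ∃ S : Finset (Fin n → ℝ), (∀ a ∈ S, a ∈ IntL n ∧ a ∈ C) ∧
    ∀ x ∈ interior C, ∃ g ∈ Γ, (∀ r ∈ R, g r = r) ∧
      ∃ σ ∈ cone S, g x - σ ∈ Submodule.span ℝ (R : Set (Fin n → ℝ))

/-- The covering implies the relative coverings. -/
theorem relCov_of_cov (h : Proper C) (ha : Acts C Γ) (hc : Cov C Γ) {R : Finset (Fin n → ℝ)}
    (hR : ∀ r ∈ R, r ∈ IntL n ∧ r ∈ C) : RelCov C Γ R := by
  classical
  obtain ⟨S₀, hS₀, hcov⟩ := hc
  obtain ⟨ξ, y₀, Y, D, hy₀⟩ := exists_cdata (sandwich_self h)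
  -- Dickson
  obtain ⟨T, hTΓ, hT⟩ := D.exists_dickson Γ ha.int ha.cone (ξ := ξ) D.xi_int one_pos
    (fun x _ => by rw [one_mul]) S₀ hS₀
  choose! M hM0 hM using fun t (ht : t ∈ T) => xi_comparable ha D (hTΓ t ht)
  set K : ℝ := ∑ t ∈ T, M t with hK
  have hK0 : 0 ≤ K := Finset.sum_nonneg fun t ht => (hM0 t ht).le
  have hcone : ∀ z ∈ cone S₀, z ∈ C := fun z hz =>
    cone_ind (p := fun x => x ∈ C) h.zero_mem (fun x y hx hy => h.add x hx y hy)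
      (fun t x ht hx => h.smul t ht x hx) (fun a haS => (hS₀ a haS).2) hz
  have hKz : ∀ z ∈ cone S₀, ∀ g ∈ Γ, ξ z ≤ K * ξ (g z) := by
    intro z hz g hg
    obtain ⟨t, ht, hle⟩ := hT g hg
    have h1 : ξ ((t : (Fin n → ℝ) →ₗ[ℝ] (Fin n → ℝ)) z) ≤ ξ ((g : (Fin n → ℝ) →ₗ[ℝ] (Fin n → ℝ)) z) :=
      CData.le_of_cone (fun a haS => hle a haS) hz
    have h2 : ξ (t z) ≤ ξ (g z) := h1
    have hzC := hcone z hz
    have h3 := hM t ht z hzC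
    have h4 : 0 ≤ ξ (g z) := D.xi_nonneg (ha.cone g hg z hzC)
    calc ξ z ≤ M t * ξ (t z) := h3
      _ ≤ M t * ξ (g z) := mul_le_mul_of_nonneg_left h2 (hM0 t ht).le
      _ ≤ K * ξ (g z) := mul_le_mul_of_nonneg_right
          (Finset.single_le_sum (fun t ht => (hM0 t ht).le) ht) h4
  set ρ := ∑ r ∈ R, r with hρ
  have hρC : ρ ∈ C := by
    have h1 : ρ ∈ cone R := cone_sum _ _ fun r hr => mem_cone_self hr
    exact cone_ind (p := fun x => x ∈ C) h.zero_mem (fun x y hx hy => h.add x hx y hy)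
      (fun t x ht hx => h.smul t ht x hx) (fun a haS => (hR a haS).2) h1
  -- the possible images of `R`
  let B : ℝ := K * (ξ ρ + 1)
  let Θ : Set (R → (Fin n → ℝ)) := {θ | ∃ g ∈ Γ, (∀ r : R, g r = θ r) ∧ ∀ r : R, ξ (θ r) ≤ B}
  have hΘ : Θ.Finite := by
    refine (Set.Finite.pi' (fun _ : R => D.fin B)).subset ?_
    rintro θ ⟨g, hg, hgθ, hθ⟩ r
    refine ⟨?_, ?_, hθ r⟩
    · rw [← hgθ r]; exact ha.int g hg _ (hR r r.2).1
    · rw [← hgθ r]; exact ha.cone g hg _ (hR r r.2).2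
  choose! rep hrepΓ hrepθ hrepB using fun θ (hθ : θ ∈ Θ) => hθ
  refine ⟨hΘ.toFinset.biUnion fun θ => S₀.image ((rep θ)⁻¹ : (Fin n → ℝ) ≃ₗ[ℝ] (Fin n → ℝ)), ?_, ?_⟩
  · intro a haS
    obtain ⟨θ, hθ, h1⟩ := Finset.mem_biUnion.1 haS
    obtain ⟨b, hb, rfl⟩ := Finset.mem_image.1 h1
    have hθ' : θ ∈ Θ := (hΘ.mem_toFinset).1 hθ
    have hr := Γ.inv_mem (hrepΓ θ hθ')
    exact ⟨ha.int _ hr b (hS₀ b hb).1, ha.cone _ hr b (hS₀ b hb).2⟩
  · intro x hx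
    -- a large multiple of `ρ`
    set t : ℝ := ξ x + 1 with ht
    have hξx : 0 ≤ ξ x := D.xi_nonneg (interior_subset hx)
    have ht0 : 0 < t := by linarith
    have hxt : x + t • ρ ∈ interior C := interior_add_mem h.add hx (h.smul t ht0.le ρ hρC)
    obtain ⟨g, hg, hgz⟩ := hcov _ hxt
    have h1 := hKz _ hgz g⁻¹ (Γ.inv_mem hg)
    rw [inv_apply'] at h1
    rw [map_add, map_add, map_smul, map_smul, map_add, map_smul, smul_eq_mul, smul_eq_mul] at h1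
    have hgx0 : 0 ≤ ξ (g x) := D.xi_nonneg (ha.cone g hg x (interior_subset hx))
    have hgρ : ξ (g ρ) ≤ B := by
      have h2 : t * ξ (g ρ) ≤ K * (ξ x + t * ξ ρ) := by linarith
      have h3 : K * (ξ x + t * ξ ρ) ≤ t * B := by
        have h4 : ξ x + t * ξ ρ ≤ t * (ξ ρ + 1) := by rw [mul_add, mul_one]; linarith
        calc K * (ξ x + t * ξ ρ) ≤ K * (t * (ξ ρ + 1)) := mul_le_mul_of_nonneg_left h4 hK0
          _ = t * B := by simp only [B]; ring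
      exact le_of_mul_le_mul_left (h2.trans h3) ht0
    have hgr : ∀ r : R, ξ (g r) ≤ B := by
      intro r
      refine le_trans ?_ hgρ
      rw [hρ, map_sum, map_sum]
      exact Finset.single_le_sum (f := fun r => ξ (g r))
        (fun r hr => D.xi_nonneg (ha.cone g hg r (hR r hr).2)) r.2
    let θ : R → (Fin n → ℝ) := fun r => g r
    have hθ : θ ∈ Θ := ⟨g, hg, fun r => rfl, hgr⟩
    have hrepr : ∀ r ∈ R, rep θ r = g r := fun r hr => hrepθ θ hθ ⟨r, hr⟩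
    have hrepg := hrepΓ θ hθ
    refine ⟨(rep θ)⁻¹ * g, Γ.mul_mem (Γ.inv_mem hrepg) hg, ?_, (rep θ)⁻¹ (g (x + t • ρ)), ?_, ?_⟩
    · intro r hr
      change (rep θ)⁻¹ (g r) = r
      rw [← hrepr r hr, inv_apply']
    · have h5 : ((rep θ)⁻¹ : (Fin n → ℝ) ≃ₗ[ℝ] (Fin n → ℝ)) (g (x + t • ρ)) ∈
          cone (S₀.image ((rep θ)⁻¹ : (Fin n → ℝ) ≃ₗ[ℝ] (Fin n → ℝ))) :=
        cone_image (((rep θ)⁻¹ : (Fin n → ℝ) ≃ₗ[ℝ] (Fin n → ℝ)) : (Fin n → ℝ) →ₗ[ℝ] (Fin n → ℝ)) hgz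
      exact cone_mono (Finset.subset_biUnion_of_mem
        (fun θ => S₀.image ((rep θ)⁻¹ : (Fin n → ℝ) ≃ₗ[ℝ] (Fin n → ℝ)))
        ((hΘ.mem_toFinset).2 hθ)) h5
    · have h6 : (rep θ)⁻¹ (g ρ) = ρ := by
        rw [hρ, map_sum, map_sum]
        refine Finset.sum_congr rfl fun r hr => ?_
        rw [← hrepr r hr, inv_apply']
      change (rep θ)⁻¹ (g x) - (rep θ)⁻¹ (g (x + t • ρ)) ∈ _
      rw [map_add, map_add, map_smul, map_smul, h6]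
      have h7 : (rep θ)⁻¹ (g x) - ((rep θ)⁻¹ (g x) + t • ρ) = (-t) • ρ := by
        rw [neg_smul]; abel
      rw [h7]
      exact Submodule.smul_mem _ _ (Submodule.sum_mem _ fun r hr => Submodule.subset_span hr)

end Pool.Agent.Helper63.Mc
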